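import Pool.Agent.X296.Enr.SAx
import Pool.Agent.TH729.SQ.Comp

/-!
# The forms of the statements used in the results (helper296)
-/

set_option autoImplicit false

namespace Pool.Agent.X296.Enr

open Pool.Agent.W279.Tri MvPolynomial Pool.Agent.H581R2 Pool.Agent.TH729.SQ

/-- the product form of the monomials -/
lemma mo_prod {R : Type*} [CommRing R] (p : Fin 3 → Fin 2 → R) (k : I) :
    (∏ i : Fin 3, (p i 0 ^ (2 - (k.1 i : ℕ)) * p i 1 ^ (k.1 i : ℕ))) = tw 1 p k := by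
  unfold tw mo
  rw [Fin.prod_univ_three, mon_eq, mon_eq, mon_eq, one_pow, one_mul]

/-- the form as a sum over the invariant monomials -/
lemma form_eq {K : Type} [Field K] (c : I → K) :
    (∑ k : I, C (c k) * ∏ i : Fin 3, ((X (i, 0) : MvPolynomial (Fin 3 × Fin 2) K) ^
      (2 - (k.1 i : ℕ)) * X (i, 1) ^ (k.1 i : ℕ))) = form (arr 1 c) := by
  have h1 := sum_E (R := MvPolynomial (Fin 3 × Fin 2) K) 1 (fun k => C (c k))
    (fun i a => X (i, a))
  have h2 : ∀ k : I, (∏ i : Fin 3, ((X (i, 0) : MvPolynomial (Fin 3 × Fin 2) K) ^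
      (2 - (k.1 i : ℕ)) * X (i, 1) ^ (k.1 i : ℕ))) = tw 1 (fun i a => X (i, a)) k := fun k =>
    mo_prod (fun i a => X (i, a)) k
  simp only [h2]
  rw [h1, E_expand]
  unfold form
  refine Finset.sum_congr rfl fun i _ => Finset.sum_congr rfl fun j _ =>
    Finset.sum_congr rfl fun k _ => ?_
  unfold arr
  split_ifs
  · simp
  · simp

/-- the values of rational functions on products of the cones over the quotients -/
theorem SA_values {ι κ : Type} [Finite ι] [Finite κ] {c : ι → I → ℚ}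
    (hc : ∀ j, ∀ k : I, (∀ i, k.1 i ≠ 1) → c j k ≠ 0) (hF : ∀ j, Adm2 (form (arr 1 (c j))))
    {m : Type} [Finite m] (p : m → MvPolynomial ((ι × I) ⊕ κ) ℚ)
    (q : MvPolynomial ((ι × I) ⊕ κ) ℚ) :
    SA (closure {y : m → ℝ | ∃ (z : ι → I → ℚ) (u : κ → ℚ),
      (∀ j, OnX (RingHom.id ℚ) (c j) (z j)) ∧ eval (Sum.elim (fun r => z r.1 r.2) u) q ≠ 0 ∧
      ∀ k, y k = ((eval (Sum.elim (fun r => z r.1 r.2) u) (p k) /
        eval (Sum.elim (fun r => z r.1 r.2) u) q : ℚ) : ℝ)}) :=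
  Pool.Agent.TH729.BQ.vals_SA (S := fun j => {z | OnX (RingHom.id ℚ) (c j) z})
    (fun j => SA_cone (hc j) (hF j)) p q

end Pool.Agent.X296.Enr
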