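import Pool.Agent.X296.Enr.Main

/-!
# Isolated values of rational functions on products of the quotients (helper296)
-/

set_option autoImplicit false

namespace Pool.Agent.X296.Enr

open MvPolynomial Filter Topology

universe v

section dense

variable {K : Type*} [Field K] {L : Type*} [NontriviallyNormedField L] {σ : K →+* L}

lemma infinite_near (hσ : DenseRange σ) {W : Set L} (hW : IsOpen W) (hne : W.Nonempty) :
    {s : K | σ s ∈ W}.Infinite := by
  intro hf
  obtain ⟨x, hx⟩ := hne
  have h1 : (W \ (σ '' {s : K | σ s ∈ W})).Nonempty := by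
    have h2 : W.Infinite := infinite_of_mem_nhds x (hW.mem_nhds hx)
    exact (h2.sdiff (hf.image _)).nonempty
  have h3 : IsOpen (W \ (σ '' {s : K | σ s ∈ W})) := hW.sdiff (hf.image _).isClosed
  obtain ⟨s, hs⟩ := hσ.exists_mem_open h3 h1
  exact hs.2 ⟨s, hs.1, rfl⟩

/-- a polynomial which vanishes at infinitely many multiples vanishes at all of them -/
lemma van_of_infinite {τ : Type*} {f : MvPolynomial τ K} {z w : τ → K} {S : Set K}
    (hS : S.Infinite) (h : ∀ s ∈ S, eval (fun k => s * z k + w k) f = 0) (t : K) :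
    eval (fun k => t * z k + w k) f = 0 := by
  set g : Polynomial K := aeval (fun k => Polynomial.C (z k) * Polynomial.X +
    Polynomial.C (w k)) f with hg
  have he : ∀ t : K, g.eval t = eval (fun k => t * z k + w k) f := by
    intro t
    rw [hg, ← Polynomial.coe_evalRingHom, aeval_def, hom_eval₂]
    simp only [Polynomial.coe_evalRingHom, Polynomial.eval_mul, Polynomial.eval_C,
      Polynomial.eval_X, Polynomial.eval_add]
    rw [← eval₂_id]
    have e1 : (Polynomial.evalRingHom t).comp (algebraMap K (Polynomial K)) = RingHom.id K := by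
      ext a
      simp
    rw [e1]
    congr 1
    funext k
    rw [mul_comm]
  have h0 : g = 0 := by
    refine Polynomial.eq_zero_of_infinite_isRoot g (hS.mono fun s hs => ?_)
    change g.eval s = 0
    rw [he]
    exact h s hs
  rw [← he, h0, Polynomial.eval_zero]

end dense

variable {K : Type} [Field K]

/-- points of a given type -/
def OfType (c : I → K) {T : Set (I → K)} (τ : Option T) (z : I → K) : Prop :=
  match τ with
  | none => OnX (RingHom.id K) c z
  | some t => ∃ s : K, ∀ k, z k = s * t.1 k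

variable {L : Type v} [NontriviallyNormedField L] {σ : K →+* L}

/-- the type of a rational point -/
lemma exists_type [CharZero K] {c : I → K} {T : Set (I → K)}
    (hT : ∀ y ∈ T, OnX (RingHom.id K) c y)
    (h : ∀ x : I → L, x ≠ 0 → JX c σ x = Set.univ ∨ JX c σ x = IX c ∨
      ∃ y ∈ T, (∃ t : L, t ≠ 0 ∧ ∀ k, x k = t * σ (y k)) ∧ JX c σ x = {f | VanX f y})
    {y : I → K} (hy : OnX (RingHom.id K) c y) :
    ∃ τ : Option T, OfType c τ y ∧ ∀ f ∈ JX c σ (fun k => σ (y k)), ∀ z : I → K,
      OfType c τ z → eval z f = 0 := by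
  have hx : (fun k => σ (y k)) ≠ 0 := by
    intro h0
    apply hy.1
    funext k
    have := congrFun h0 k
    simpa using this
  rcases h _ hx with h1 | h1 | ⟨y0, hy0, ⟨t, ht, hty⟩, h1⟩
  · exfalso
    have h2 : (1 : MvPolynomial I K) ∈ JX c σ (fun k => σ (y k)) := by
      rw [h1]
      exact Set.mem_univ _
    obtain ⟨U, hU, h3⟩ := h2
    have h4 := h3 y hy ⟨1, one_ne_zero, by simpa using mem_of_mem_nhds hU⟩ 1
    rw [map_one] at h4
    exact one_ne_zero h4
  · refine ⟨none, hy, fun f hf z hz => ?_⟩
    rw [h1] at hf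
    have := vanX_of_IX hf (y := z) hz 1
    simpa using this
  · obtain ⟨l, hl⟩ := Function.ne_iff.1 (hT y0 hy0).1
    simp only [Pi.zero_apply] at hl
    refine ⟨some ⟨y0, hy0⟩, ⟨y l / y0 l, fun k => ?_⟩, fun f hf z hz => ?_⟩
    · apply σ.injective
      have e1 := hty k
      have e2 := hty l
      have hl' : σ (y0 l) ≠ 0 := (map_ne_zero σ).2 hl
      rw [map_mul, map_div₀, e2, e1]
      field_simp
    · rw [h1] at hf
      obtain ⟨s, hs⟩ := hz
      have := hf s
      have e : (fun k => s * y0 k) = z := funext fun k => (hs k).symm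
      rw [e] at this
      exact this

/-- local vanishing on the cone implies that the polynomial is in the local ideal -/
lemma mem_JX_of_near (hσ : DenseRange σ) {c : I → K} {x : I → L} {f : MvPolynomial I K}
    {U : Set (I → L)} (hU : U ∈ 𝓝 x)
    (h : ∀ y : I → K, OnX (RingHom.id K) c y → (fun k => σ (y k)) ∈ U → eval y f = 0) :
    f ∈ JX c σ x := by
  refine ⟨interior U, interior_mem_nhds.2 hU, ?_⟩
  rintro y hy ⟨t, ht, htU⟩ r
  have hcont : Continuous fun s : L => (fun k : I => s * σ (y k)) := by fun_prop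
  have hWo : IsOpen ((fun s : L => (fun k : I => s * σ (y k))) ⁻¹' interior U ∩ {0}ᶜ) :=
    (isOpen_interior.preimage hcont).inter isOpen_compl_singleton
  have h1 := infinite_near hσ hWo ⟨t, htU, ht⟩
  have h2 := van_of_infinite (f := f) (z := y) (w := 0) h1 (fun s hs => ?_) r
  · simpa using h2
  · obtain ⟨hs1, hs2⟩ := hs
    have hs0 : s ≠ 0 := by
      rintro rfl
      exact hs2 (map_zero σ)
    have h3 : OnX (RingHom.id K) c (fun k => s * y k) := by
      refine ⟨?_, hy.2.1.smul s, ?_⟩
      · intro h0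
        apply hy.1
        funext k
        have := congrFun h0 k
        simpa [hs0] using this
      · have h4 := hy.2.2
        simp only [RingHom.id_apply] at h4 ⊢
        have h5 : ∑ k, c k * (s * y k) = s * ∑ k, c k * y k := by
          rw [Finset.mul_sum]
          exact Finset.sum_congr rfl fun k _ => by ring
        rw [h5, h4, mul_zero]
    have h6 := h _ h3 (by
      have : (fun k => σ (s * y k)) = fun k => σ s * σ (y k) := by
        funext k
        rw [map_mul]
      rw [this]
      exact interior_subset hs1)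
    simpa using h6

/-- specialisation of the variables of all factors but one -/
noncomputable def spec {ι κ : Type} [DecidableEq ι] (j : ι) (z : ι → I → K) (u : κ → K) :
    MvPolynomial ((ι × I) ⊕ κ) K →ₐ[K] MvPolynomial I K :=
  aeval (Sum.elim (fun r => if r.1 = j then X r.2 else C (z r.1 r.2)) fun k => C (u k))

lemma eval_spec {ι κ : Type} [DecidableEq ι] (j : ι) (z : ι → I → K) (u : κ → K)
    (P : MvPolynomial ((ι × I) ⊕ κ) K) (x : I → K) :
    eval x (spec j z u P) =
      eval (Sum.elim (fun r => Function.update z j x r.1 r.2) u) P := by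
  unfold spec
  rw [← coe_aeval_eq_eval, ← coe_aeval_eq_eval]
  change (aeval x : MvPolynomial I K →ₐ[K] K) _ = (aeval _ : _ →ₐ[K] K) P
  rw [← AlgHom.comp_apply]
  congr 1
  apply MvPolynomial.algHom_ext
  rintro (⟨i, k⟩ | k)
  · by_cases hi : i = j
    · subst hi
      simp
    · simp [hi]
  · simp

/-- **Spreading out.** -/
theorem spread {ι κ : Type} [Finite ι] [Finite κ] (hσ : DenseRange σ) {c : ι → I → K}
    {T : ι → Set (I → K)} {y : ι → I → K} {u : κ → K} {τ : ∀ j, Option (T j)}
    (hτ : ∀ j, ∀ f ∈ JX (c j) σ (fun k => σ (y j k)), ∀ z : I → K, OfType (c j) (τ j) z →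
      eval z f = 0)
    (P : MvPolynomial ((ι × I) ⊕ κ) K) {N : Set ((ι × I) ⊕ κ → L)}
    (hN : N ∈ 𝓝 (fun q => σ (Sum.elim (fun r : ι × I => y r.1 r.2) u q)))
    (h : ∀ (z : ι → I → K) (w : κ → K), (∀ j, OnX (RingHom.id K) (c j) (z j)) →
      (fun q => σ (Sum.elim (fun r : ι × I => z r.1 r.2) w q)) ∈ N →
      eval (Sum.elim (fun r : ι × I => z r.1 r.2) w) P = 0)
    (z : ι → I → K) (w : κ → K) (hz : ∀ j, OfType (c j) (τ j) (z j)) :
    eval (Sum.elim (fun r : ι × I => z r.1 r.2) w) P = 0 := by
  classical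
  have := Fintype.ofFinite ι
  have := Fintype.ofFinite κ
  -- a box
  obtain ⟨V, hV, W, hW, hVW⟩ : ∃ V : ∀ j : ι, Set (I → L), (∀ j, V j ∈ 𝓝 fun k => σ (y j k)) ∧
      ∃ W : κ → Set L, (∀ k, IsOpen (W k) ∧ σ (u k) ∈ W k) ∧
        ∀ (z : ι → I → K) (w : κ → K), (∀ j, (fun k => σ (z j k)) ∈ V j) → (∀ k, σ (w k) ∈ W k) →
          (fun q => σ (Sum.elim (fun r : ι × I => z r.1 r.2) w q)) ∈ N := by
    rw [nhds_pi] at hN
    obtain ⟨A, hA, t, ht, hsub⟩ := Filter.mem_pi.1 hN
    refine ⟨fun j => {x | ∀ k, x k ∈ t (Sum.inl (j, k))}, fun j => ?_,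
      fun k => interior (t (Sum.inr k)), fun k => ⟨isOpen_interior, ?_⟩, ?_⟩
    · have : ∀ᶠ x : I → L in 𝓝 (fun k => σ (y j k)), ∀ k, x k ∈ t (Sum.inl (j, k)) := by
        rw [Filter.eventually_all]
        intro k
        exact (continuous_apply k).continuousAt (ht (Sum.inl (j, k)))
      exact this
    · exact mem_interior_iff_mem_nhds.2 (ht (Sum.inr k))
    · intro z w hz hw
      refine hsub fun q _ => ?_
      rcases q with ⟨j, k⟩ | k
      · exact hz j k
      · exact interior_subset (hw k)
  -- release the surfaces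
  have step1 : ∀ A : Finset ι, ∀ (z : ι → I → K) (w : κ → K),
      (∀ j ∈ A, OfType (c j) (τ j) (z j)) →
      (∀ j ∉ A, OnX (RingHom.id K) (c j) (z j) ∧ (fun k => σ (z j k)) ∈ V j) →
      (∀ k, σ (w k) ∈ W k) → eval (Sum.elim (fun r : ι × I => z r.1 r.2) w) P = 0 := by
    intro A
    induction A using Finset.induction_on with
    | empty =>
      intro z w _ h2 h3
      exact h z w (fun j => (h2 j (Finset.notMem_empty j)).1)
        (hVW z w (fun j => (h2 j (Finset.notMem_empty j)).2) h3)
    | insert j A hj ih =>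
      intro z w h1 h2 h3
      have key : spec j z w P ∈ JX (c j) σ (fun k => σ (y j k)) := by
        refine mem_JX_of_near hσ (hV j) fun x hx hxV => ?_
        rw [eval_spec]
        refine ih (Function.update z j x) w (fun i hi => ?_) (fun i hi => ?_) h3
        · have hij : i ≠ j := fun h0 => hj (h0 ▸ hi)
          rw [Function.update_of_ne hij]
          exact h1 i (Finset.mem_insert_of_mem hi)
        · by_cases hij : i = j
          · subst hij
            rw [Function.update_self]
            exact ⟨hx, hxV⟩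
          · rw [Function.update_of_ne hij]
            exact h2 i (fun h0 => (Finset.mem_insert.1 h0).elim hij hi)
      have h5 := hτ j _ key (z j) (h1 j (Finset.mem_insert_self _ _))
      rw [eval_spec, Function.update_eq_self] at h5
      exact h5
  -- release the other coordinates
  have step2 : ∀ B : Finset κ, ∀ (z : ι → I → K) (w : κ → K),
      (∀ j, OfType (c j) (τ j) (z j)) → (∀ k ∉ B, σ (w k) ∈ W k) →
      eval (Sum.elim (fun r : ι × I => z r.1 r.2) w) P = 0 := by
    intro B
    induction B using Finset.induction_on with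
    | empty =>
      intro z w h1 h2
      exact step1 Finset.univ z w (fun j _ => h1 j) (fun j hj => absurd (Finset.mem_univ j) hj)
        (fun k => h2 k (Finset.notMem_empty k))
    | insert k B hk ih =>
      intro z w h1 h2
      have hinf := infinite_near hσ (hW k).1 ⟨_, (hW k).2⟩
      set e : ((ι × I) ⊕ κ) → K := Sum.elim (fun _ => 0) (Pi.single k 1) with he
      set w0 : ((ι × I) ⊕ κ) → K := Sum.elim (fun r : ι × I => z r.1 r.2)
        (Function.update w k 0) with hw0
      have hes : ∀ s : K, (fun q => s * e q + w0 q) =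
          Sum.elim (fun r : ι × I => z r.1 r.2) (Function.update w k s) := by
        intro s
        funext q
        rcases q with r | k'
        · change s * 0 + z r.1 r.2 = z r.1 r.2
          ring
        · change s * (Pi.single k 1 : κ → K) k' + Function.update w k 0 k' =
            Function.update w k s k'
          by_cases hkk : k' = k
          · subst hkk
            rw [Pi.single_eq_same, Function.update_self, Function.update_self]
            ring
          · rw [Pi.single_eq_of_ne hkk, Function.update_of_ne hkk, Function.update_of_ne hkk]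
            ring
      have h5 := van_of_infinite (f := P) (z := e) (w := w0) hinf (fun s hs => ?_) (w k)
      · rw [hes, Function.update_eq_self] at h5
        exact h5
      · rw [hes]
        refine ih z _ h1 fun k' hk' => ?_
        by_cases hkk : k' = k
        · subst hkk
          rw [Function.update_self]
          exact hs
        · rw [Function.update_of_ne hkk]
          exact h2 k' fun h0 => (Finset.mem_insert.1 h0).elim hkk hk'
  exact step2 Finset.univ z w hz (fun k hk => absurd (Finset.mem_univ k) hk)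

/-- **Isolated values.** -/
theorem isolated_values {K : Type} [Field K] [NumberField K] {ι κ : Type} [Finite ι] [Finite κ]
    {c : ι → I → K} (hc : ∀ j, ∀ k : I, (∀ i, k.1 i ≠ 1) → c j k ≠ 0)
    (hF : ∀ j, Adm (W279.Tri.form (arr 1 (c j))))
    (p q : MvPolynomial ((ι × I) ⊕ κ) K) {D : Set K}
    (hD : D = {a | ∃ (z : ι → I → K) (u : κ → K), (∀ j, OnX (RingHom.id K) (c j) (z j)) ∧
      eval (Sum.elim (fun r : ι × I => z r.1 r.2) u) q ≠ 0 ∧
      a = eval (Sum.elim (fun r : ι × I => z r.1 r.2) u) p /
        eval (Sum.elim (fun r : ι × I => z r.1 r.2) u) q})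
    (L : Type v) [NontriviallyNormedField L] [CompleteSpace L] (σ : K →+* L)
    (hσ : DenseRange σ) :
    {a ∈ D | ∃ U ∈ 𝓝 (σ a), ∀ b ∈ D, σ b ∈ U → b = a}.Finite := by
  classical
  choose T hTf hT1 hT2 using fun j => main.{v} (hc j) (hF j)
  have hT2' := fun j => hT2 j L σ hσ
  have : ∀ j, Finite (T j) := fun j => (hTf j).to_subtype
  -- the types of an isolated value
  have key : ∀ a ∈ {a ∈ D | ∃ U ∈ 𝓝 (σ a), ∀ b ∈ D, σ b ∈ U → b = a},
      ∃ τ : ∀ j, Option (T j), (∃ (z : ι → I → K) (u : κ → K),
        (∀ j, OfType (c j) (τ j) (z j)) ∧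
        eval (Sum.elim (fun r : ι × I => z r.1 r.2) u) q ≠ 0) ∧
        ∀ (z : ι → I → K) (u : κ → K), (∀ j, OfType (c j) (τ j) (z j)) →
          eval (Sum.elim (fun r : ι × I => z r.1 r.2) u) p =
            a * eval (Sum.elim (fun r : ι × I => z r.1 r.2) u) q := by
    rintro a ⟨haD, U, hU, hiso⟩
    have haD' := haD
    rw [hD] at haD'
    obtain ⟨y, u, hy, hq, ha⟩ := haD'
    choose τ hτ1 hτ2 using fun j => exists_type (hT1 j) (hT2' j) (hy j)
    refine ⟨τ, ⟨y, u, hτ1, hq⟩, fun z w hz => ?_⟩
    have hcp : ∀ f : MvPolynomial ((ι × I) ⊕ κ) K, Continuous fun x : (ι × I) ⊕ κ → L =>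
        eval₂ σ x f := by
      intro f
      have : (fun x : (ι × I) ⊕ κ → L => eval₂ σ x f) = fun x => eval x (map σ f) := by
        funext x
        rw [eval_map]
      rw [this]
      exact continuous_eval _
    have hpt : ∀ (f : MvPolynomial ((ι × I) ⊕ κ) K) (z : ι → I → K) (w : κ → K),
        eval₂ σ (fun q => σ (Sum.elim (fun r : ι × I => z r.1 r.2) w q)) f =
          σ (eval (Sum.elim (fun r : ι × I => z r.1 r.2) w) f) := by
      intro f z w
      rw [MvPolynomial.eval, MvPolynomial.coe_eval₂Hom, MvPolynomial.eval₂_comp_left]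
      rfl
    set x0 : (ι × I) ⊕ κ → L := fun q => σ (Sum.elim (fun r : ι × I => y r.1 r.2) u q) with hx0
    have hN : {x : (ι × I) ⊕ κ → L | eval₂ σ x q ≠ 0 ∧ eval₂ σ x p / eval₂ σ x q ∈ U} ∈
        𝓝 x0 := by
      have hq0 : eval₂ σ x0 q ≠ 0 := by
        rw [hx0, hpt]
        exact (map_ne_zero σ).2 hq
      have h1 : ∀ᶠ x in 𝓝 x0, eval₂ σ x q ≠ 0 := (hcp q).continuousAt.eventually_ne hq0
      have h2 : ContinuousAt (fun x => eval₂ σ x p / eval₂ σ x q) x0 :=
        (hcp p).continuousAt.div (hcp q).continuousAt hq0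
      have h3 : eval₂ σ x0 p / eval₂ σ x0 q = σ a := by
        rw [hx0, hpt, hpt, ← map_div₀, ← ha]
      have h4 : ∀ᶠ x in 𝓝 x0, eval₂ σ x p / eval₂ σ x q ∈ U := by
        refine h2 ?_
        change U ∈ 𝓝 (eval₂ σ x0 p / eval₂ σ x0 q)
        rw [h3]
        exact hU
      filter_upwards [h1, h4] with x g1 g2
      exact ⟨g1, g2⟩
    have hs := spread (σ := σ) hσ hτ2 (p - C a * q) hN (fun z w hz hzN => ?_) z w hz
    · rw [map_sub, map_mul, eval_C, sub_eq_zero] at hs
      exact hs
    · obtain ⟨g1, g2⟩ := hzN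
      rw [hpt] at g1
      rw [hpt, hpt, ← map_div₀] at g2
      have g1' := (map_ne_zero σ).1 g1
      have h5 := hiso _ (by
        rw [hD]
        exact ⟨z, w, hz, g1', rfl⟩) g2
      rw [map_sub, map_mul, eval_C, sub_eq_zero, ← h5, div_mul_cancel₀ _ g1']
  choose! τ hτ1 hτ2 using key
  have hfin : (Set.univ : Set (∀ j, Option (T j))).Finite := Set.finite_univ
  refine Set.Finite.of_injOn (f := τ) (t := Set.univ) (fun _ _ => Set.mem_univ _) ?_ hfin
  intro a ha b hb hab
  obtain ⟨z, u, hz, hq⟩ := hτ1 a ha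
  have h1 := hτ2 a ha z u hz
  have h2 := hτ2 b hb z u (by rw [← hab]; exact hz)
  rw [h1] at h2
  exact mul_right_cancel₀ hq h2

end Pool.Agent.X296.Enr
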