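import Pool.Agent.X296.Enr.Toric
import Pool.Agent.H645R3.ABC4

/-!
# The twists with rational points (helper296)
-/

set_option autoImplicit false

namespace Pool.Agent.X296.Enr

open Pool.Agent.W279.Tri NumberField IsDedekindDomain H645.ABC

variable {K : Type} [Field K] [NumberField K]

/-- the classes modulo squares with even valuations outside of a finite set -/
theorem exists_classes (S : Set (HeightOneSpectrum (𝓞 K))) (hS : S.Finite) :
    ∃ D : Set K, D.Finite ∧ 0 ∉ D ∧ ∀ z : Kˣ, (∀ v ∉ S, (2 : ℤ) ∣ vl v z) →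
      ∃ d ∈ D, ∃ w : K, w ≠ 0 ∧ (z : K) = d * w ^ 2 := by
  classical
  obtain ⟨ι, hι, c, hc⟩ := selmer (K := K) 2 two_pos
  have : Finite S := hS
  -- parities
  let par : Kˣ → (S → ZMod 2) := fun z v => ((vl v.1 z : ℤ) : ZMod 2)
  let P : (S → ZMod 2) → Kˣ → Prop := fun π z => (∀ v ∉ S, (2 : ℤ) ∣ vl v z) ∧ par z = π
  let b : (S → ZMod 2) → Kˣ := fun π => if h : ∃ z, P π z then h.choose else 1
  have hb : ∀ z : Kˣ, (∀ v ∉ S, (2 : ℤ) ∣ vl v z) → P (par z) (b (par z)) := by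
    intro z hz
    have h : ∃ z', P (par z) z' := ⟨z, hz, rfl⟩
    simp only [b, dif_pos h]
    exact h.choose_spec
  have hev : ∀ z : Kˣ, (∀ v ∉ S, (2 : ℤ) ∣ vl v z) → ∀ v, ((2 : ℕ) : ℤ) ∣ vl v (z / b (par z)) := by
    intro z hz v
    obtain ⟨h1, h2⟩ := hb z hz
    rw [vl_div]
    by_cases hv : v ∈ S
    · have h3 := congrFun h2 ⟨v, hv⟩
      simp only [par] at h3
      have := (ZMod.intCast_eq_intCast_iff_dvd_sub _ _ 2).1 h3
      simpa using this
    · exact dvd_sub (hz v hv) (h1 v hv)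
  let Q : (S → ZMod 2) × ι → Kˣ → Prop := fun x z =>
    (∀ v ∉ S, (2 : ℤ) ∣ vl v z) ∧ par z = x.1 ∧ c (z / b (par z)) = x.2
  let e : (S → ZMod 2) × ι → Kˣ := fun x => if h : ∃ z, Q x z then h.choose else 1
  refine ⟨Set.range fun x => ((e x : Kˣ) : K), Set.finite_range _, ?_, fun z hz => ?_⟩
  · rintro ⟨x, hx⟩
    exact (e x).ne_zero hx
  · have h : ∃ z', Q (par z, c (z / b (par z))) z' := ⟨z, hz, rfl, rfl⟩
    refine ⟨_, ⟨(par z, c (z / b (par z))), rfl⟩, ?_⟩
    have he : e (par z, c (z / b (par z))) = h.choose := by simp only [e, dif_pos h]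
    obtain ⟨h1, h2, h3⟩ := h.choose_spec
    rw [← he] at h1 h2 h3
    set y := e (par z, c (z / b (par z))) with hy
    obtain ⟨w, hw⟩ := hc (z / b (par z)) (y / b (par y)) (hev z hz) (hev y h1) h3.symm
    refine ⟨w, w.ne_zero, ?_⟩
    rw [h2] at hw
    have h4 : z = y * w ^ 2 := by
      have := congrArg (fun x => x * b (par z)) hw
      simp only [div_mul_cancel] at this
      rw [this]
      rw [mul_right_comm, div_mul_cancel]
    have h5 := congrArg (fun x : Kˣ => (x : K)) h4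
    simpa using h5

section order

variable {Γ : Type*} [LinearOrderedCommGroupWithZero Γ]

/-- the dominating corner -/
noncomputable def cn (a b : Γ) : Fin 3 := if b < a then 0 else 2

lemma cn_spec {a b : Γ} (hab : a ≠ b) (j : Fin 3) (hj : j ≠ cn a b) :
    a ^ (2 - (j : ℕ)) * b ^ (j : ℕ) < a ^ (2 - (cn a b : ℕ)) * b ^ (cn a b : ℕ) := by
  unfold cn at hj ⊢
  by_cases h : b < a
  · rw [if_pos h] at hj ⊢
    have ha : 0 < a := lt_of_le_of_lt zero_le h
    fin_cases j
    · exact absurd rfl hj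
    · simp only [Fin.mk_one, Fin.val_one, Fin.val_zero]
      simp only [Nat.add_one_sub_one, pow_one, Nat.sub_zero, pow_zero, mul_one]
      rw [pow_two]
      exact mul_lt_mul_of_pos_left h ha
    · simp
      exact pow_lt_pow_left₀ h zero_le two_ne_zero
  · rw [if_neg h] at hj ⊢
    have h' : a < b := lt_of_le_of_ne (not_lt.1 h) hab
    have hb : 0 < b := lt_of_le_of_lt zero_le h'
    fin_cases j
    · simp
      exact pow_lt_pow_left₀ h' zero_le two_ne_zero
    · simp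
      rw [pow_two]
      exact mul_lt_mul_of_pos_right h' hb
    · exact absurd rfl hj

lemma cn_pos {a b : Γ} (hab : a ≠ b) : 0 < a ^ (2 - (cn a b : ℕ)) * b ^ (cn a b : ℕ) := by
  refine lt_of_le_of_lt zero_le (cn_spec hab 1 ?_)
  unfold cn
  split_ifs <;> decide

lemma mul3 {x X y Y z Z : Γ} (h1 : x ≤ X) (h2 : y ≤ Y) (h3 : z ≤ Z) (hX : 0 < X) (hY : 0 < Y)
    (hZ : 0 < Z) (h : x < X ∨ y < Y ∨ z < Z) : x * y * z < X * Y * Z := by
  rcases h with h | h | h
  · calc x * y * z ≤ x * Y * Z := mul_le_mul' (mul_le_mul' le_rfl h2) h3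
      _ < X * Y * Z := mul_lt_mul_of_pos_right (mul_lt_mul_of_pos_right h hY) hZ
  · calc x * y * z ≤ X * y * Z := mul_le_mul' (mul_le_mul' h1 le_rfl) h3
      _ < X * Y * Z := mul_lt_mul_of_pos_right (mul_lt_mul_of_pos_left h hX) hZ
  · calc x * y * z ≤ X * Y * z := mul_le_mul' (mul_le_mul' h1 h2) le_rfl
      _ < X * Y * Z := mul_lt_mul_of_pos_left h (mul_pos hX hY)

lemma rearr {M : Type*} [CommMonoid M] (a b c x y z : M) :
    a * b * c * (x * y * z) ^ 2 = (a * x ^ 2) * (b * y ^ 2) * (c * z ^ 2) := by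
  rw [mul_pow, mul_pow, mul_mul_mul_comm (a * b) c, mul_mul_mul_comm a b]

lemma fi_eq {M : Type*} [CommMonoid M] (x y z : M) (m n : ℕ) :
    (x ^ 2) ^ m * (y * z ^ 2) ^ n = y ^ n * (x ^ m * z ^ n) ^ 2 := by
  rw [mul_pow, mul_pow, pow_right_comm x, pow_right_comm z, mul_left_comm]

end order

/-- a twist with rational points is unramified at the places of good reduction -/
theorem even_of_point {c : I → K} {v : HeightOneSpectrum (𝓞 K)}
    (hc1 : ∀ k, v.valuation K (c k) ≤ 1)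
    (hc2 : ∀ k : I, (∀ i, k.1 i ≠ 1) → v.valuation K (c k) = 1) {d : Kˣ}
    {p : Fin 3 → Fin 2 → K} (hp : ∀ i, p i ≠ 0) (h : ∑ k, c k * tw (d : K) p k = 0) :
    (2 : ℤ) ∣ vl v d := by
  classical
  by_contra hodd
  set V := v.valuation K with hV
  have hne : ∀ i, V (p i 0) ^ 2 ≠ V d * V (p i 1) ^ 2 := by
    intro i he
    have h1 : p i 1 ≠ 0 := by
      intro h0
      rw [h0, map_zero, zero_pow two_ne_zero, mul_zero] at he
      have h2 : p i 0 = 0 := (Valuation.zero_iff _).1 (pow_eq_zero_iff two_ne_zero |>.1 he)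
      apply hp i
      funext a
      fin_cases a
      · exact h2
      · exact h0
    have h0 : p i 0 ≠ 0 := by
      intro h0
      rw [h0, map_zero, zero_pow two_ne_zero] at he
      have h3 := mul_ne_zero ((Valuation.ne_zero_iff V).2 d.ne_zero)
        (pow_ne_zero 2 ((Valuation.ne_zero_iff V).2 h1))
      exact h3 he.symm
    apply hodd
    have h4 : vl v ((Units.mk0 _ h0) ^ 2) = vl v (d * (Units.mk0 _ h1) ^ 2) := by
      unfold vl
      congr 1
      rw [← WithZero.coe_inj, HeightOneSpectrum.valuationOfNeZero_eq,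
        HeightOneSpectrum.valuationOfNeZero_eq]
      simpa using he
    rw [vl_mul, vl_pow, vl_pow] at h4
    refine ⟨vl v (Units.mk0 _ h0) - vl v (Units.mk0 _ h1), ?_⟩
    push_cast at h4
    linarith
  set f : Fin 3 → Fin 3 → WithZero (Multiplicative ℤ) := fun i j =>
    (V (p i 0) ^ 2) ^ (2 - (j : ℕ)) * (V d * V (p i 1) ^ 2) ^ (j : ℕ) with hf
  set κ : Fin 3 → Fin 3 := fun i => cn (V (p i 0) ^ 2) (V d * V (p i 1) ^ 2) with hκ
  have hκ1 : ∀ i, κ i ≠ 1 := by
    intro i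
    simp only [hκ, cn]
    split_ifs <;> decide
  have hκe : Even ((κ 0 : ℕ) + κ 1 + κ 2) := by
    simp only [hκ, cn]
    split_ifs <;> decide
  set κ' : I := ⟨κ, hκe⟩ with hκ'
  have hsq : ∀ k : I, V (tw (d : K) p k) ^ 2 = f 0 (k.1 0) * f 1 (k.1 1) * f 2 (k.1 2) := by
    intro k
    have hw := wt_two k
    have e1 : V (tw (d : K) p k) = V d ^ wt k.1 *
        ((V (p 0 0) ^ (2 - (k.1 0 : ℕ)) * V (p 0 1) ^ (k.1 0 : ℕ)) *
          (V (p 1 0) ^ (2 - (k.1 1 : ℕ)) * V (p 1 1) ^ (k.1 1 : ℕ)) *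
          (V (p 2 0) ^ (2 - (k.1 2 : ℕ)) * V (p 2 1) ^ (k.1 2 : ℕ))) := by
      unfold tw mo
      rw [mon_eq, mon_eq, mon_eq]
      simp only [map_mul, map_pow]
    have e2 : (V (d : K) ^ wt k.1) ^ 2 = V d ^ (k.1 0 : ℕ) * V d ^ (k.1 1 : ℕ) *
        V d ^ (k.1 2 : ℕ) := by
      rw [← pow_mul, mul_comm (wt k.1), hw, pow_add, pow_add]
    rw [e1, mul_pow, e2, rearr]
    simp only [hf, fi_eq]
  have hle : ∀ i j, f i j ≤ f i (κ i) := by
    intro i j
    by_cases hj : j = κ i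
    · rw [hj]
    · exact (cn_spec (hne i) j hj).le
  have hpos : ∀ i, 0 < f i (κ i) := fun i => cn_pos (hne i)
  have hlt : ∀ k : I, k ≠ κ' → V (c k * tw (d : K) p k) < V (c κ' * tw (d : K) p κ') := by
    intro k hk
    refine lt_of_pow_lt_pow_left₀ 2 zero_le ?_
    rw [map_mul, map_mul, hc2 κ' hκ1, one_mul, mul_pow, hsq, hsq]
    calc V (c k) ^ 2 * (f 0 (k.1 0) * f 1 (k.1 1) * f 2 (k.1 2))
        ≤ 1 * (f 0 (k.1 0) * f 1 (k.1 1) * f 2 (k.1 2)) :=
          mul_le_mul' (pow_le_one' (hc1 k) 2) le_rfl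
      _ = f 0 (k.1 0) * f 1 (k.1 1) * f 2 (k.1 2) := one_mul _
      _ < f 0 (κ 0) * f 1 (κ 1) * f 2 (κ 2) := by
          refine mul3 (hle 0 _) (hle 1 _) (hle 2 _) (hpos 0) (hpos 1) (hpos 2) ?_
          by_contra hcon
          push Not at hcon
          apply hk
          apply Subtype.ext
          funext i
          have : f i (κ i) ≤ f i (k.1 i) := by
            fin_cases i
            · exact hcon.1
            · exact hcon.2.1
            · exact hcon.2.2
          by_contra hne'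
          exact absurd (cn_spec (hne i) (k.1 i) hne') (not_lt.2 this)
  have hg : V (c κ' * tw (d : K) p κ') ≠ 0 := by
    rw [map_mul, hc2 κ' hκ1, one_mul]
    intro h0
    have := hsq κ'
    rw [h0, zero_pow two_ne_zero] at this
    exact (mul_pos (mul_pos (hpos 0) (hpos 1)) (hpos 2)).ne this
  rw [← Finset.add_sum_erase _ _ (Finset.mem_univ κ')] at h
  have h1 : V (∑ k ∈ Finset.univ.erase κ', c k * tw (d : K) p k) <
      V (c κ' * tw (d : K) p κ') :=
    Valuation.map_sum_lt V hg fun k hk => hlt k (Finset.ne_of_mem_erase hk)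
  have h2 : c κ' * tw (d : K) p κ' = -∑ k ∈ Finset.univ.erase κ', c k * tw (d : K) p k :=
    eq_neg_of_add_eq_zero_left h
  rw [h2, Valuation.map_neg] at h1
  exact lt_irrefl _ h1

/-- the twists with rational points belong to finitely many classes modulo squares -/
theorem exists_twists {c : I → K} (hc : ∀ k : I, (∀ i, k.1 i ≠ 1) → c k ≠ 0) :
    ∃ D : Set K, D.Finite ∧ 0 ∉ D ∧ ∀ (d : K) (p : Fin 3 → Fin 2 → K), d ≠ 0 →
      (∀ i, p i ≠ 0) → ∑ k, c k * tw d p k = 0 → ∃ e ∈ D, ∃ w : K, w ≠ 0 ∧ d = e * w ^ 2 := by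
  classical
  set S : Set (HeightOneSpectrum (𝓞 K)) := ⋃ k : I, {v | c k ≠ 0 ∧ v.valuation K (c k) ≠ 1} with hS
  have hSf : S.Finite := by
    refine Set.finite_iUnion fun k => ?_
    by_cases hk : c k = 0
    · simp [hk]
    · refine (supp_finite (Units.mk0 _ hk)).subset ?_
      rintro v ⟨-, hv⟩ h0
      apply hv
      have h1 : v.valuationOfNeZero (Units.mk0 _ hk) = 1 := by
        unfold vl at h0
        exact h0
      have h2 := v.valuationOfNeZero_eq (Units.mk0 _ hk)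
      rw [h1] at h2
      exact h2.symm
  obtain ⟨D, hD, hD0, h⟩ := exists_classes S hSf
  refine ⟨D, hD, hD0, fun d p hd hp hE => ?_⟩
  refine h (Units.mk0 d hd) fun v hv => ?_
  have hv' : ∀ k, c k ≠ 0 → v.valuation K (c k) = 1 := by
    intro k hk
    by_contra hne
    exact hv (Set.mem_iUnion.2 ⟨k, hk, hne⟩)
  refine even_of_point (c := c) (p := p) (fun k => ?_) (fun k hk => hv' k (hc k hk)) hp hE
  by_cases hk : c k = 0
  · rw [hk, map_zero]
    exact zero_le
  · exact (hv' k hk).le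

end Pool.Agent.X296.Enr
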