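import Pool.Agent.X296.Enr.Twist
import Pool.Agent.X296.Enr.Sel

/-!
# Local closures on the quotient (helper296)
-/

set_option autoImplicit false

namespace Pool.Agent.X296.Enr

open Pool.Agent.W279.Tri MvPolynomial Filter Topology

section alg

variable {K : Type*} [Field K]

/-- the points of the quotient surface over an extension -/
def OnX {F : Type*} [Field F] (φ : K →+* F) (c : I → K) (z : I → F) : Prop :=
  z ≠ 0 ∧ Toric z ∧ ∑ k, φ (c k) * z k = 0

/-- `f` vanishes at all multiples of `y` -/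
def VanX (f : MvPolynomial I K) (y : I → K) : Prop := ∀ t : K, eval (fun k => t * y k) f = 0

lemma VanX.smul {f : MvPolynomial I K} {y y' : I → K} (h : VanX f y) {s : K}
    (e : ∀ k, y' k = s * y k) : VanX f y' := by
  intro t
  have := h (t * s)
  rw [← this]
  congr 2
  funext k
  rw [e, mul_assoc]

/-- a polynomial vanishing at the nonzero square multiples of `y` -/
lemma vanX_of_sq [CharZero K] {f : MvPolynomial I K} {y : I → K}
    (h : ∀ s : K, s ≠ 0 → eval (fun k => s ^ 2 * y k) f = 0) : VanX f y := by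
  set g : Polynomial K := aeval (fun k => Polynomial.C (y k) * Polynomial.X) f with hg
  have he : ∀ t : K, g.eval t = eval (fun k => t * y k) f := by
    intro t
    rw [hg, ← Polynomial.coe_evalRingHom, aeval_def, hom_eval₂]
    simp only [Polynomial.coe_evalRingHom, Polynomial.eval_mul, Polynomial.eval_C,
      Polynomial.eval_X]
    rw [← eval₂_id]
    have e1 : (Polynomial.evalRingHom t).comp (algebraMap K (Polynomial K)) = RingHom.id K := by
      ext a
      simp
    rw [e1]
    congr 1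
    funext k
    exact mul_comm _ _
  have h0 : g = 0 := by
    refine Polynomial.eq_zero_of_infinite_isRoot g ?_
    have hinj : Function.Injective (fun n : ℕ => (((n : K) + 1) ^ 2)) := by
      intro a b hab
      simp only at hab
      have h1 : (((a + 1) ^ 2 : ℕ) : K) = (((b + 1) ^ 2 : ℕ) : K) := by
        push_cast
        exact hab
      have h2 := Nat.cast_injective h1
      have := Nat.pow_left_injective (n := 2) two_ne_zero h2
      omega
    refine (Set.infinite_range_of_injective hinj).mono ?_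
    rintro _ ⟨n, rfl⟩
    change g.eval _ = 0
    rw [he]
    exact h _ (by exact_mod_cast Nat.succ_ne_zero n)
  intro t
  rw [← he, h0, Polynomial.eval_zero]

/-- the pull-back of polynomials -/
noncomputable def pull (d : K) : MvPolynomial I K →ₐ[K] MvPolynomial (Fin 3 × Fin 2) K :=
  aeval fun k => C (d ^ wt k.1) * mo (fun i a => X (i, a)) k.1

lemma mo_hom {R S : Type*} [CommRing R] [CommRing S] (φ : R →+* S) (p : Fin 3 → Fin 2 → R)
    (k : Fin 3 → Fin 3) : φ (mo p k) = mo (fun i a => φ (p i a)) k := by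
  simp only [mo, mon_eq, map_mul, map_pow]

lemma tw_hom {R S : Type*} [CommRing R] [CommRing S] (φ : R →+* S) (d : R)
    (p : Fin 3 → Fin 2 → R) (k : I) : φ (tw d p k) = tw (φ d) (fun i a => φ (p i a)) k := by
  simp only [tw, map_mul, map_pow, mo_hom]

lemma aeval_pull {F : Type*} [Field F] [Algebra K F] (d : K) (f : MvPolynomial I K)
    (w : Fin 3 × Fin 2 → F) :
    aeval w (pull d f) = aeval (fun k => tw (algebraMap K F d) (fun i a => w (i, a)) k) f := by
  rw [pull, ← AlgHom.comp_apply]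
  congr 1
  apply MvPolynomial.algHom_ext
  intro k
  simp only [AlgHom.coe_comp, Function.comp_apply, aeval_X, map_mul, algHom_C, map_pow, tw]
  congr 1
  have := mo_hom (aeval w : MvPolynomial (Fin 3 × Fin 2) K →ₐ[K] F).toRingHom
    (fun i a => X (i, a)) k.1
  simpa using this

lemma eval_pull (d : K) (f : MvPolynomial I K) (w : Fin 3 × Fin 2 → K) :
    eval w (pull d f) = eval (fun k => tw d (fun i a => w (i, a)) k) f := by
  have := aeval_pull (F := K) d f w
  simpa [aeval_eq_eval] using this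

lemma tw_smul {R : Type*} [CommRing R] (d : R) (t : Fin 3 → R) (p : Fin 3 → Fin 2 → R) (k : I) :
    tw d (fun i a => t i * p i a) k = (t 0 * t 1 * t 2) ^ 2 * tw d p k := by
  have e : ∀ i, mon (fun a => t i * p i a) (k.1 i) = t i ^ 2 * mon (p i) (k.1 i) := by
    intro i
    exact mon_smul (t i) (p i) (k.1 i)
  simp only [tw, mo, e]
  ring

lemma van_pull [CharZero K] {d : K} {f : MvPolynomial I K} {P : Fin 3 → Fin 2 → K} :
    Van (pull d f) P ↔ VanX f (tw d P) := by
  have key : ∀ t : Fin 3 → K, eval (fun p : Fin 3 × Fin 2 => t p.1 * P p.1 p.2) (pull d f) =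
      eval (fun k => (t 0 * t 1 * t 2) ^ 2 * tw d P k) f := by
    intro t
    rw [eval_pull]
    congr 2
    funext k
    exact tw_smul d t P k
  constructor
  · intro h
    refine vanX_of_sq fun s _ => ?_
    have := h ![s, 1, 1]
    rw [key] at this
    simpa using this
  · intro h t
    rw [key]
    exact h _

lemma tw_ne_zero {d : K} (hd : d ≠ 0) {p : Fin 3 → Fin 2 → K} (hp : ∀ i, p i ≠ 0) :
    tw d p ≠ 0 := by
  classical
  set κ : Fin 3 → Fin 3 := fun i => if p i 0 ≠ 0 then 0 else 2 with hκ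
  have hκe : Even ((κ 0 : ℕ) + κ 1 + κ 2) := by
    simp only [hκ]
    split_ifs <;> decide
  have hm : ∀ i, mon (p i) (κ i) ≠ 0 := by
    intro i
    simp only [hκ]
    split_ifs with h
    · simp [mon, h]
    · push Not at h
      simp only [mon, Matrix.cons_val]
      refine pow_ne_zero 2 fun h1 => hp i ?_
      funext a
      fin_cases a
      · exact h
      · exact h1
  intro h0
  have := congrFun h0 ⟨κ, hκe⟩
  simp only [tw, mo, Pi.zero_apply] at this
  exact mul_ne_zero (pow_ne_zero _ hd) (mul_ne_zero (mul_ne_zero (hm 0) (hm 1)) (hm 2)) this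

lemma onX_tw {F : Type*} [Field F] (φ : K →+* F) {c : I → K} {d : K} (hd : d ≠ 0)
    {p : Fin 3 → Fin 2 → F} (hp : ∀ i, p i ≠ 0)
    (hE : E (fun i j k => φ (arr d c i j k)) (p 0) (p 1) (p 2) = 0) : OnX φ c (tw (φ d) p) := by
  refine ⟨tw_ne_zero ((map_ne_zero φ).2 hd) hp, tw_toric _ _, ?_⟩
  rw [sum_E (φ d) (fun k => φ (c k)) p, ← hE]
  congr 1
  funext i j k
  unfold arr
  split_ifs <;> simp

lemma E_of_onX {F : Type*} [Field F] (φ : K →+* F) {c : I → K} {d : K} {z : I → F}
    (hz : OnX φ c z) {p : Fin 3 → Fin 2 → F} (h : RepD z (φ d) p) :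
    E (fun i j k => φ (arr d c i j k)) (p 0) (p 1) (p 2) = 0 := by
  obtain ⟨-, -, h3⟩ := hz
  obtain ⟨hp, s, hs, h⟩ := h
  have h4 : s * ∑ k, φ (c k) * tw (φ d) p k = 0 := by
    rw [← h3, Finset.mul_sum]
    refine Finset.sum_congr rfl fun k _ => ?_
    rw [h k]
    ring
  have h5 := (mul_eq_zero.1 h4).resolve_left hs
  rw [sum_E (φ d) (fun k => φ (c k)) p] at h5
  rw [← h5]
  congr 1
  funext i j k
  unfold arr
  split_ifs <;> simp

end alg

section loc

variable {K : Type*} [Field K] {L : Type*} [NontriviallyNormedField L]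

/-- the polynomials which vanish at all rational points of the quotient near `x` -/
def JX (c : I → K) (σ : K →+* L) (x : I → L) : Set (MvPolynomial I K) :=
  {f | ∃ U ∈ 𝓝 x, ∀ y : I → K, OnX (RingHom.id K) c y →
    (∃ t : L, t ≠ 0 ∧ (fun k => t * σ (y k)) ∈ U) → VanX f y}

/-- proportional vectors -/
def Prp {F : Type*} [Field F] (x z : I → F) : Prop := ∀ k l, x k * z l = x l * z k

lemma Prp.exists {F : Type*} [Field F] {x z : I → F} (h : Prp x z) (hx : x ≠ 0) (hz : z ≠ 0) :
    ∃ s : F, s ≠ 0 ∧ ∀ k, x k = s * z k := by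
  obtain ⟨l, hl⟩ := Function.ne_iff.1 hz
  obtain ⟨m, hm⟩ := Function.ne_iff.1 hx
  simp only [Pi.zero_apply] at hl hm
  have h1 : x l ≠ 0 := by
    intro h0
    have := h m l
    rw [h0, zero_mul] at this
    exact (mul_ne_zero hm hl) this
  refine ⟨x l / z l, div_ne_zero h1 hl, fun k => ?_⟩
  have := h k l
  field_simp
  linear_combination this

lemma continuous_tw (d : L) : Continuous fun P : Fin 3 → Fin 2 → L => tw d P := by
  refine continuous_pi fun k => ?_
  simp only [tw, mo, mon_eq]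
  fun_prop

variable [CharZero K]

/-- pulling back -/
lemma pull_mem {c : I → K} {σ : K →+* L} {x : I → L} {d : K} (hd : d ≠ 0)
    {P : Fin 3 → Fin 2 → L} {s : L} (hs : s ≠ 0) (hx : ∀ k, x k = s * tw (σ d) P k)
    {f : MvPolynomial I K} (hf : f ∈ JX c σ x) : pull d f ∈ Jx (arr d c) σ P := by
  obtain ⟨U, hU, hf⟩ := hf
  have hcont : Continuous fun Q : Fin 3 → Fin 2 → L => fun k => s * tw (σ d) Q k :=
    continuous_pi fun k => continuous_const.mul ((continuous_apply k).comp (continuous_tw (σ d)))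
  refine ⟨(fun Q : Fin 3 → Fin 2 → L => fun k => s * tw (σ d) Q k) ⁻¹' U,
    hcont.continuousAt.preimage_mem_nhds ?_, fun y hy => ?_⟩
  · have : (fun k => s * tw (σ d) P k) = x := funext fun k => (hx k).symm
    rw [this]
    exact hU
  · obtain ⟨hy0, hyE, e, he, heW⟩ := hy
    rw [van_pull]
    refine hf _ ?_ ⟨s * (e 0 * e 1 * e 2) ^ 2, ?_, ?_⟩
    · exact onX_tw (RingHom.id K) hd hy0 hyE
    · exact mul_ne_zero hs (pow_ne_zero 2 (mul_ne_zero (mul_ne_zero (he 0) (he 1)) (he 2)))
    · have h1 : (fun k => s * (e 0 * e 1 * e 2) ^ 2 * σ (tw d y k)) =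
          fun k => s * tw (σ d) (fun i a => e i * σ (y i a)) k := by
        funext k
        rw [tw_smul, tw_hom]
        ring
      rw [h1]
      exact heW

lemma exists_normalize {v : Fin 2 → L} (hv : v ≠ 0) : ∃ a : L, a ≠ 0 ∧ ‖a • v‖ = 1 := by
  obtain ⟨i, hi⟩ := exists_norm_eq v
  have h1 : v i ≠ 0 := by
    rw [← norm_ne_zero_iff, hi, norm_ne_zero_iff]
    exact hv
  refine ⟨(v i)⁻¹, inv_ne_zero h1, ?_⟩
  rw [norm_smul, norm_inv, hi]
  exact inv_mul_cancel₀ (norm_ne_zero_iff.2 hv)

/-- pushing forward -/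
lemma push_mem [ProperSpace L] {c : I → K} {σ : K →+* L} {x : I → L} {d : K}
    {f : MvPolynomial I K}
    (hf : ∀ P : Fin 3 → Fin 2 → L, (∀ i, ‖P i‖ = 1) → Prp x (tw (σ d) P) →
      pull d f ∈ Jx (arr d c) σ P) :
    ∃ U ∈ 𝓝 x, ∀ y : I → K, OnX (RingHom.id K) c y → (∃ p, RepD y d p) →
      (∃ t : L, t ≠ 0 ∧ (fun k => t * σ (y k)) ∈ U) → VanX f y := by
  set Cs : Set (Fin 3 → Fin 2 → L) := {P | ∀ i, ‖P i‖ = 1} with hCs
  set W : Set (Fin 3 → Fin 2 → L) := {P | pull d f ∈ Jx (arr d c) σ P} with hW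
  have hWo : IsOpen W := by
    rw [isOpen_iff_mem_nhds]
    rintro P ⟨U, hU, h⟩
    refine Filter.mem_of_superset (interior_mem_nhds.2 hU) fun Q hQ => ?_
    exact ⟨U, mem_interior_iff_mem_nhds.1 hQ, h⟩
  have hCc : IsCompact Cs := by
    refine Metric.isCompact_of_isClosed_isBounded ?_ ?_
    · have : Cs = ⋂ i, {P : Fin 3 → Fin 2 → L | ‖P i‖ = 1} := by
        ext P
        simp [hCs]
      rw [this]
      exact isClosed_iInter fun i => isClosed_eq (by fun_prop) continuous_const
    · refine (Metric.isBounded_closedBall (x := (0 : Fin 3 → Fin 2 → L)) (r := 1)).subset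
        fun P hP => ?_
      rw [Metric.mem_closedBall, dist_zero_right, pi_norm_le_iff_of_nonneg zero_le_one]
      exact fun i => (hP i).le
  have hB : IsCompact (Cs ∩ Wᶜ) := hCc.inter_right hWo.isClosed_compl
  have hev : ∀ᶠ x' in 𝓝 x, ∀ P ∈ Cs ∩ Wᶜ, ¬Prp x' (tw (σ d) P) := by
    refine hB.eventually_forall_of_forall_eventually fun P hP => ?_
    have h1 : ¬Prp x (tw (σ d) P) := fun h => hP.2 (hf P hP.1 h)
    have h2 : IsOpen {q : (I → L) × (Fin 3 → Fin 2 → L) | ¬Prp q.1 (tw (σ d) q.2)} := by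
      have : {q : (I → L) × (Fin 3 → Fin 2 → L) | Prp q.1 (tw (σ d) q.2)} =
          ⋂ k, ⋂ l, {q | q.1 k * tw (σ d) q.2 l = q.1 l * tw (σ d) q.2 k} := by
        ext q
        simp [Prp]
      have h3 : IsClosed {q : (I → L) × (Fin 3 → Fin 2 → L) | Prp q.1 (tw (σ d) q.2)} := by
        rw [this]
        refine isClosed_iInter fun k => isClosed_iInter fun l => isClosed_eq ?_ ?_
        · exact ((continuous_apply k).comp continuous_fst).mul
            ((continuous_apply l).comp ((continuous_tw (σ d)).comp continuous_snd))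
        · exact ((continuous_apply l).comp continuous_fst).mul
            ((continuous_apply k).comp ((continuous_tw (σ d)).comp continuous_snd))
      exact h3.isOpen_compl
    exact h2.mem_nhds h1
  refine ⟨_, hev, ?_⟩
  rintro y hy ⟨p, hyp⟩ ⟨t, ht, htU⟩
  have hE := E_of_onX (RingHom.id K) (d := d) hy hyp
  obtain ⟨hp, s, hs, hys⟩ := hyp
  choose a ha0 ha using fun i => exists_normalize (L := L) (v := fun b => σ (p i b))
    (map_ne σ (hp i))
  set Q : Fin 3 → Fin 2 → L := fun i b => a i * σ (p i b) with hQ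
  have hQC : Q ∈ Cs := fun i => ha i
  have hprp : Prp (fun k => t * σ (y k)) (tw (σ d) Q) := by
    intro k l
    rw [hQ, tw_smul, tw_smul, ← tw_hom, ← tw_hom]
    beta_reduce
    rw [hys k, hys l, map_mul, map_mul]
    ring
  have hQW : Q ∈ W := by
    by_contra hn
    exact htU Q ⟨hQC, hn⟩ hprp
  obtain ⟨V, hV, h⟩ := hQW
  have h1 : Van (pull d f) p := h p ⟨hp, hE, a, ha0, mem_of_mem_nhds hV⟩
  rw [van_pull] at h1
  exact h1.smul hys

end loc

end Pool.Agent.X296.Enr
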