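import Pool.Agent.X296.Enr.Local

/-!
# Mazur's question for the quotients of the triquadratic surfaces (helper296)
-/

set_option autoImplicit false

namespace Pool.Agent.X296.Enr

open Pool.Agent.W279.Tri MvPolynomial Filter Topology

universe v

/-- the ideal of the quotient surface -/
def IX {K : Type} [Field K] (c : I → K) : Set (MvPolynomial I K) :=
  {f | ∀ z : I → AlgebraicClosure K, OnX (algebraMap K (AlgebraicClosure K)) c z →
    aeval z f = 0}

section alg

variable {K : Type} [Field K]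

/-- representatives with a given twist over an algebraically closed field -/
lemma rep_closed {F : Type*} [Field F] [IsAlgClosed F] {z : I → F} (h : Toric z) (h0 : z ≠ 0)
    {d : F} (hd : d ≠ 0) : ∃ p : Fin 3 → Fin 2 → F, (∀ i, p i ≠ 0) ∧ z = tw d p := by
  obtain ⟨d', p, hd', hp⟩ := exists_rep h h0
  obtain ⟨w, hw⟩ := IsAlgClosed.exists_pow_nat_eq (d' / d) two_pos
  have hw0 : w ≠ 0 := by
    rintro rfl
    rw [zero_pow two_ne_zero] at hw
    exact div_ne_zero hd' hd hw.symm
  have hdw : d' = d * w ^ 2 := by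
    rw [hw, mul_div_cancel₀ _ hd]
  rw [hdw] at hp
  obtain ⟨hp0, s, hs, hz⟩ := hp.twist hw0
  obtain ⟨r, hr⟩ := IsAlgClosed.exists_pow_nat_eq s two_pos
  have hr0 : r ≠ 0 := by
    rintro rfl
    rw [zero_pow two_ne_zero] at hr
    exact hs hr.symm
  have ht : ∀ i, (![r, 1, 1] : Fin 3 → F) i ≠ 0 := by
    intro i
    fin_cases i
    · exact hr0
    · exact one_ne_zero
    · exact one_ne_zero
  refine ⟨fun i a => (![r, 1, 1] : Fin 3 → F) i * (fun i => ![p i 0, w * p i 1]) i a,
    fun i h0 => hp0 i ?_, ?_⟩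
  · funext a
    have := congrFun h0 a
    simp only [Pi.zero_apply, mul_eq_zero, ht i, false_or] at this
    exact this
  · funext k
    rw [tw_smul, hz k]
    simp [hr]

/-- divisibility by the equation of a twist -/
lemma mem_IX_of_dvd {c : I → K} {d : K} (hd : d ≠ 0) {f : MvPolynomial I K}
    (h : form (arr d c) ∣ pull d f) : f ∈ IX c := by
  intro z hz
  set φ := algebraMap K (AlgebraicClosure K) with hφ
  obtain ⟨p, hp, hzp⟩ := rep_closed hz.2.1 hz.1 ((map_ne_zero φ).2 hd)
  have hE := E_of_onX φ (d := d) hz (p := p) ⟨hp, 1, one_ne_zero, fun k => by rw [hzp, one_mul]⟩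
  obtain ⟨g, hg⟩ := h
  have h1 := aeval_pull (F := AlgebraicClosure K) d f (fun q => p q.1 q.2)
  have h2 : (fun k => tw (algebraMap K (AlgebraicClosure K) d)
      (fun i a => (fun q : Fin 3 × Fin 2 => p q.1 q.2) (i, a)) k) = z := hzp.symm
  rw [h2, hg, map_mul, aeval_def, eval₂_form] at h1
  rw [← h1]
  have h3 : E (fun i j k => φ (arr d c i j k)) (fun a => p 0 a) (fun a => p 1 a)
      (fun a => p 2 a) = 0 := hE
  rw [h3, zero_mul]

/-- the ideal vanishes at the rational points -/
lemma vanX_of_IX [CharZero K] {c : I → K} {f : MvPolynomial I K} (hf : f ∈ IX c) {y : I → K}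
    (hy : OnX (RingHom.id K) c y) : VanX f y := by
  refine vanX_of_sq fun s hs => ?_
  have hs2 : s ^ 2 ≠ 0 := pow_ne_zero 2 hs
  have h1 := hf (fun k => algebraMap K (AlgebraicClosure K) (s ^ 2 * y k)) ⟨?_, ?_, ?_⟩
  · rw [aeval_def, ← Function.comp_def, ← eval₂_comp, map_eq_zero] at h1
    · exact h1
  · intro h0
    apply hy.1
    funext k
    have := congrFun h0 k
    simp only [Pi.zero_apply, map_eq_zero, mul_eq_zero, hs2, false_or] at this
    exact this
  · intro k l m n hk
    rw [← map_mul, ← map_mul]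
    congr 1
    have := hy.2.1 k l m n hk
    linear_combination (s ^ 2) ^ 2 * this
  · have h2 := hy.2.2
    simp only [RingHom.id_apply] at h2
    have h3 : ∑ k, algebraMap K (AlgebraicClosure K) (c k) *
        algebraMap K (AlgebraicClosure K) (s ^ 2 * y k) =
        algebraMap K (AlgebraicClosure K) (s ^ 2 * ∑ k, c k * y k) := by
      rw [Finset.mul_sum, map_sum]
      refine Finset.sum_congr rfl fun k _ => ?_
      rw [← map_mul]
      congr 1
      ring
    rw [h3, h2, mul_zero, map_zero]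

end alg

/-- **Mazur's question for the quotients.** -/
theorem main {K : Type} [Field K] [NumberField K] {c : I → K}
    (hc : ∀ k : I, (∀ i, k.1 i ≠ 1) → c k ≠ 0) (hF : Adm (form (arr 1 c))) :
    ∃ T : Set (I → K), T.Finite ∧ (∀ y ∈ T, OnX (RingHom.id K) c y) ∧
      ∀ (L : Type v) [NontriviallyNormedField L] [CompleteSpace L] (σ : K →+* L),
        DenseRange σ → ∀ x : I → L, x ≠ 0 →
          JX c σ x = Set.univ ∨ JX c σ x = IX c ∨
            ∃ y ∈ T, (∃ t : L, t ≠ 0 ∧ ∀ k, x k = t * σ (y k)) ∧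
              JX c σ x = {f | VanX f y} := by
  classical
  obtain ⟨D, hDf, hD0, hD⟩ := exists_twists hc
  have hd : ∀ d ∈ D, d ≠ 0 := fun d hd h0 => hD0 (h0 ▸ hd)
  -- the theorem for the twists
  have hm : ∀ d ∈ D, ∃ T : Set (Fin 3 → Fin 2 → K), T.Finite ∧
      (∀ P ∈ T, (∀ i, P i ≠ 0) ∧ E (arr d c) (P 0) (P 1) (P 2) = 0) ∧
      ∀ (L : Type v) [NontriviallyNormedField L] [CompleteSpace L] (σ : K →+* L),
        DenseRange σ → ∀ x : Fin 3 → Fin 2 → L, (∀ i, x i ≠ 0) →
          Jx (arr d c) σ x = Set.univ ∨ Jx (arr d c) σ x = {f | form (arr d c) ∣ f} ∨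
            ∃ P ∈ T, Eqv x (fun i a => σ (P i a)) ∧ Jx (arr d c) σ x = {f | Van f P} := by
    intro d hdD
    have h1 := hF.twist (hd d hdD)
    exact main_form (irreducible_of_map _ h1.irr) h1.noFibre h1.isolated
  choose! T hT hT1 hT2 using hm
  refine ⟨⋃ d ∈ D, tw d '' T d, hDf.biUnion fun d hdD => (hT d hdD).image _, ?_, ?_⟩
  · intro y hy
    simp only [Set.mem_iUnion] at hy
    obtain ⟨d, hdD, P, hP, rfl⟩ := hy
    exact onX_tw (RingHom.id K) (hd d hdD) (hT1 d hdD P hP).1 (hT1 d hdD P hP).2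
  intro L _ _ σ hσ x hx
  have := properSpace_of_denseRange σ hσ
  -- every rational point has a representative with a twist in `D`
  have hrep : ∀ y : I → K, OnX (RingHom.id K) c y → ∃ d ∈ D, ∃ p, RepD y d p := by
    intro y hy
    obtain ⟨d, p, hd0, hp⟩ := exists_rep hy.2.1 hy.1
    have h1 := E_of_onX (RingHom.id K) (d := d) hy hp
    obtain ⟨e, he, w, hw, hdw⟩ := hD d p hd0 hp.1 (by
      rw [sum_E]
      exact h1)
    refine ⟨e, he, _, RepD.twist hw (p := p) ?_⟩
    rw [← hdw]
    exact hp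
  have hlift : ∀ d ∈ D, ∀ P : Fin 3 → Fin 2 → L, (∀ i, ‖P i‖ = 1) →
      Prp x (tw (σ d) P) → (∀ i, P i ≠ 0) ∧ ∃ s : L, s ≠ 0 ∧ ∀ k, x k = s * tw (σ d) P k := by
    intro d hdD P hP hprp
    have h1 : ∀ i, P i ≠ 0 := fun i h0 => by
      have := hP i
      rw [h0, norm_zero] at this
      exact zero_ne_one this
    exact ⟨h1, hprp.exists hx (tw_ne_zero ((map_ne_zero σ).2 (hd d hdD)) h1)⟩
  -- gluing
  have hglue : ∀ f : MvPolynomial I K, (∀ d ∈ D, ∀ P : Fin 3 → Fin 2 → L, (∀ i, ‖P i‖ = 1) →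
      Prp x (tw (σ d) P) → pull d f ∈ Jx (arr d c) σ P) → f ∈ JX c σ x := by
    intro f hf
    choose! U hU hU2 using fun d (hdD : d ∈ D) => push_mem (σ := σ) (x := x) (hf d hdD)
    refine ⟨⋂ d ∈ D, U d, (biInter_mem hDf).2 hU, fun y hy hyt => ?_⟩
    obtain ⟨d, hdD, hp⟩ := hrep y hy
    obtain ⟨t, ht, htU⟩ := hyt
    exact hU2 d hdD y hy hp ⟨t, ht, Set.mem_iInter₂.1 htU d hdD⟩
  by_cases hA : ∃ d ∈ D, ∃ P : Fin 3 → Fin 2 → L, (∀ i, ‖P i‖ = 1) ∧ Prp x (tw (σ d) P) ∧
      Jx (arr d c) σ P = {f | form (arr d c) ∣ f}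
  · right; left
    obtain ⟨d, hdD, P, hP, hprp, hJ⟩ := hA
    obtain ⟨hP0, s, hs, hxs⟩ := hlift d hdD P hP hprp
    apply Set.Subset.antisymm
    · intro f hf
      have h1 := pull_mem (hd d hdD) hs hxs hf
      rw [hJ] at h1
      exact mem_IX_of_dvd (hd d hdD) h1
    · intro f hf
      exact ⟨Set.univ, univ_mem, fun y hy _ => vanX_of_IX hf hy⟩
  · push Not at hA
    by_cases hB : ∃ y ∈ ⋃ d ∈ D, tw d '' T d, ∃ t : L, t ≠ 0 ∧ ∀ k, x k = t * σ (y k)
    · obtain ⟨y, hy, t, ht, hxy⟩ := hB
      right; right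
      refine ⟨y, hy, ⟨t, ht, hxy⟩, ?_⟩
      have hyX : OnX (RingHom.id K) c y := by
        simp only [Set.mem_iUnion] at hy
        obtain ⟨d, hdD, P, hP, rfl⟩ := hy
        exact onX_tw (RingHom.id K) (hd d hdD) (hT1 d hdD P hP).1 (hT1 d hdD P hP).2
      apply Set.Subset.antisymm
      · rintro f ⟨U, hU, hf⟩
        refine hf y hyX ⟨t, ht, ?_⟩
        have : (fun k => t * σ (y k)) = x := funext fun k => (hxy k).symm
        rw [this]
        exact mem_of_mem_nhds hU
      · intro f hf
        refine hglue f fun d hdD P hP hprp => ?_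
        obtain ⟨hP0, s, hs, hxs⟩ := hlift d hdD P hP hprp
        rcases hT2 d hdD L σ hσ P hP0 with h | h | ⟨Q, hQ, hPQ, h⟩
        · rw [h]
          exact Set.mem_univ _
        · exact absurd h (hA d hdD P hP hprp)
        · rw [h]
          change Van (pull d f) Q
          rw [van_pull]
          -- the two points are proportional
          obtain ⟨hQ0, -⟩ := hT1 d hdD Q hQ
          choose a ha0 ha using hPQ
          have e1 : ∀ k, x k = (s * (a 0 * a 1 * a 2) ^ 2) * σ (tw d Q k) := by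
            intro k
            have hPe : P = fun i b => a i * σ (Q i b) := by
              funext i b
              rw [ha i]
              rfl
            rw [hxs k, hPe, tw_smul, tw_hom]
            ring
          have e2 : Prp (tw d Q) y := by
            intro k l
            apply σ.injective
            have h1 := hxy k
            have h2 := hxy l
            have h3 := e1 k
            have h4 := e1 l
            have hu : s * (a 0 * a 1 * a 2) ^ 2 ≠ 0 := mul_ne_zero hs
              (pow_ne_zero 2 (mul_ne_zero (mul_ne_zero (ha0 0) (ha0 1)) (ha0 2)))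
            rw [map_mul, map_mul]
            have h5 : (s * (a 0 * a 1 * a 2) ^ 2) * t * (σ (tw d Q k) * σ (y l)) =
                (s * (a 0 * a 1 * a 2) ^ 2) * t * (σ (tw d Q l) * σ (y k)) := by
              calc _ = ((s * (a 0 * a 1 * a 2) ^ 2) * σ (tw d Q k)) * (t * σ (y l)) := by ring
                _ = x k * x l := by rw [← h3, ← h2]
                _ = ((s * (a 0 * a 1 * a 2) ^ 2) * σ (tw d Q l)) * (t * σ (y k)) := by
                    rw [← h4, ← h1, mul_comm]
                _ = _ := by ring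
            exact mul_left_cancel₀ (mul_ne_zero hu ht) h5
          obtain ⟨r, hr, hr2⟩ := e2.exists (tw_ne_zero (hd d hdD) hQ0) hyX.1
          exact VanX.smul hf hr2
    · left
      rw [Set.eq_univ_iff_forall]
      intro f
      refine hglue f fun d hdD P hP hprp => ?_
      obtain ⟨hP0, s, hs, hxs⟩ := hlift d hdD P hP hprp
      rcases hT2 d hdD L σ hσ P hP0 with h | h | ⟨Q, hQ, hPQ, h⟩
      · rw [h]
        exact Set.mem_univ _
      · exact absurd h (hA d hdD P hP hprp)
      · exfalso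
        apply hB
        choose a ha0 ha using hPQ
        refine ⟨tw d Q, Set.mem_biUnion hdD ⟨Q, hQ, rfl⟩, s * (a 0 * a 1 * a 2) ^ 2,
          mul_ne_zero hs (pow_ne_zero 2 (mul_ne_zero (mul_ne_zero (ha0 0) (ha0 1)) (ha0 2))),
          fun k => ?_⟩
        have hPe : P = fun i b => a i * σ (Q i b) := by
          funext i b
          rw [ha i]
          rfl
        rw [hxs k, hPe, tw_smul, tw_hom]
        ring

end Pool.Agent.X296.Enr
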