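import Pool.Agent.X296.Enr.Main
import Pool.Agent.TH729.SQ.Tri
import Pool.Agent.TH729.BQ.R6

/-!
# The closure of the rational points of the quotient surface (helper296)
-/

set_option autoImplicit false

namespace Pool.Agent.X296.Enr

open Pool.Agent.W279.Tri Pool.Agent.W279.TriR MvPolynomial Pool.Agent.H581R2 Pool.Agent.TH729.SQ

section flip

/-- the reversed first index -/
def fz {T : Type*} (c : Fin 3 → Fin 3 → Fin 3 → T) (i j k : Fin 3) : T := c (Fin.rev i) j k

variable {R : Type*} [CommRing R]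

/-- the swapped vector -/
def sp (x : Fin 2 → R) : Fin 2 → R := ![x 1, x 0]

lemma sp_ne {x : Fin 2 → R} (hx : x ≠ 0) : sp x ≠ 0 := by
  intro h
  apply hx
  funext a
  have h0 := congrFun h 0
  have h1 := congrFun h 1
  fin_cases a
  · exact h1
  · exact h0

lemma mon_sp (x : Fin 2 → R) (i : Fin 3) : mon (sp x) i = mon x (Fin.rev i) := by
  fin_cases i
  · rfl
  · simp only [mon, sp, Fin.mk_one, Matrix.cons_val_one, Matrix.cons_val_zero]
    exact mul_comm _ _
  · rfl

lemma dmon_sp (a : Fin 2) (x : Fin 2 → R) (i : Fin 3) :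
    dmon a (sp x) i = dmon (Fin.rev a) x (Fin.rev i) := by
  fin_cases a <;> fin_cases i <;> rfl

lemma sum_rev (g : Fin 3 → R) : ∑ i, g (Fin.rev i) = ∑ i, g i :=
  Equiv.sum_comp Fin.revPerm g

lemma T3_fz (c : Fin 3 → Fin 3 → Fin 3 → R) (p q r : Fin 3 → R) :
    T3 (fz c) (fun i => p (Fin.rev i)) q r = T3 c p q r := by
  unfold T3 fz
  exact sum_rev fun i => ∑ j, ∑ k, c i j k * (p i * (q j * r k))

lemma E_fz (c : Fin 3 → Fin 3 → Fin 3 → R) (x y z : Fin 2 → R) :
    E (fz c) (sp x) y z = E c x y z := by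
  rw [E_eq_T3, E_eq_T3, ← T3_fz c (mon x)]
  congr 1
  funext i
  exact mon_sp x i

lemma coef_sw_fz (c : Fin 3 → Fin 3 → Fin 3 → R) (j : Fin 3) (x z : Fin 2 → R) :
    coef (sw (fz c)) j (sp x) z = coef (sw c) j x z := by
  unfold coef sw fz
  simp only [mon_sp]
  exact sum_rev fun i => ∑ k, c i j k * (mon x i * mon z k)

lemma coef_rot_fz (c : Fin 3 → Fin 3 → Fin 3 → R) (k : Fin 3) (x y : Fin 2 → R) :
    coef (rot (fz c)) k (sp x) y = coef (rot c) k x y := by
  unfold coef rot fz
  simp only [mon_sp]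
  exact sum_rev fun i => ∑ j, c i j k * (mon x i * mon y j)

lemma sp_sp (x : Fin 2 → R) : sp (sp x) = x := by
  funext a
  fin_cases a <;> rfl

lemma SingX_fz {c : Fin 3 → Fin 3 → Fin 3 → R} {x y z : Fin 2 → R} (h : SingX (fz c) (sp x) y z) :
    SingX c x y z := by
  obtain ⟨h0, h1, h2⟩ := h
  have e : mon (sp x) = fun i => mon x (Fin.rev i) := funext fun i => mon_sp x i
  refine ⟨fun a => ?_, fun a => ?_, fun a => ?_⟩
  · have := h0 (Fin.rev a)
    have e2 : dmon (Fin.rev a) (sp x) = fun i => dmon a x (Fin.rev i) := by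
      funext i
      rw [dmon_sp, Fin.rev_rev]
    rw [e2, T3_fz] at this
    exact this
  · have := h1 a
    rw [e, T3_fz] at this
    exact this
  · have := h2 a
    rw [e, T3_fz] at this
    exact this

variable {K : Type*} [Field K]

lemma Nice_fz {c : Fin 3 → Fin 3 → Fin 3 → K} (h : Nice c) : Nice (fz c) where
  n0 := by
    intro y z hy hz
    obtain ⟨i, hi⟩ := h.n0 y z hy hz
    refine ⟨Fin.rev i, ?_⟩
    have : coef (fun i j k => algebraMap K (AlgebraicClosure K) (fz c i j k)) (Fin.rev i) y z =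
        coef (fun i j k => algebraMap K (AlgebraicClosure K) (c i j k)) i y z := by
      unfold coef fz
      simp only [Fin.rev_rev]
    rw [this]
    exact hi
  n1 := by
    intro x z hx hz
    obtain ⟨j, hj⟩ := h.n1 (sp x) z (sp_ne hx) hz
    refine ⟨j, fun h0 => hj ?_⟩
    have := coef_sw_fz (fun i j k => algebraMap K (AlgebraicClosure K) (c i j k)) j (sp x) z
    rw [sp_sp] at this
    exact this.symm.trans h0
  n2 := by
    intro x y hx hy
    obtain ⟨k, hk⟩ := h.n2 (sp x) y (sp_ne hx) hy
    refine ⟨k, fun h0 => hk ?_⟩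
    have := coef_rot_fz (fun i j k => algebraMap K (AlgebraicClosure K) (c i j k)) k (sp x) y
    rw [sp_sp] at this
    exact this.symm.trans h0
  s := by
    obtain ⟨S, hS, hS'⟩ := h.s
    refine ⟨(fun s => ![sp (s 0), s 1, s 2]) '' S, hS.image _, fun x y z hx hy hz hs => ?_⟩
    have hs2 : SingX (fun i j k => algebraMap K (AlgebraicClosure K) (c i j k)) (sp x) y z := by
      refine SingX_fz (x := sp x) ?_
      rw [sp_sp]
      exact hs
    obtain ⟨s, hs1, h1⟩ := hS' (sp x) y z (sp_ne hx) hy hz hs2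
    refine ⟨_, ⟨s, hs1, rfl⟩, fun i => ?_⟩
    obtain ⟨t, ht⟩ := h1 i
    refine ⟨t, ?_⟩
    fin_cases i
    · change x = t • sp (s 0)
      have h2 : sp x = t • s 0 := ht
      rw [← sp_sp x, h2]
      funext a
      fin_cases a <;> simp [sp]
    · exact ht
    · exact ht

/-- the reversal of some of the indices -/
def flp {T : Type*} (b : Fin 3 → Bool) (c : Fin 3 → Fin 3 → Fin 3 → T) (i j k : Fin 3) : T :=
  c (if b 0 then Fin.rev i else i) (if b 1 then Fin.rev j else j) (if b 2 then Fin.rev k else k)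

/-- a rotation after a possible flip -/
def rf {T : Type*} (b : Bool) (c : Fin 3 → Fin 3 → Fin 3 → T) : Fin 3 → Fin 3 → Fin 3 → T :=
  rot (if b then fz c else c)

lemma Nice_rf (b : Bool) {c : Fin 3 → Fin 3 → Fin 3 → K} (h : Nice c) : Nice (rf b c) := by
  unfold rf
  cases b
  · exact h.rot
  · exact (Nice_fz h).rot

lemma flp_eq {T : Type*} (b : Fin 3 → Bool) (c : Fin 3 → Fin 3 → Fin 3 → T) :
    flp b c = rf (b 1) (rf (b 2) (rf (b 0) c)) := by
  funext i j k
  unfold flp rf rot fz
  cases b 0 <;> cases b 1 <;> cases b 2 <;> rfl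

theorem Nice_flp (b : Fin 3 → Bool) {c : Fin 3 → Fin 3 → Fin 3 → K} (h : Nice c) :
    Nice (flp b c) := by
  rw [flp_eq]
  exact Nice_rf _ (Nice_rf _ (Nice_rf _ h))

/-- the chart -/
def ch {F : Type*} [CommRing F] (b : Fin 3 → Bool) (r : Fin 3 → F) (i : Fin 3) : Fin 2 → F :=
  if b i then ![1, r i] else ![r i, 1]

lemma E_flp {F : Type*} [Field F] (b : Fin 3 → Bool) (c : Fin 3 → Fin 3 → Fin 3 → F)
    (r : Fin 3 → F) :
    E (flp b c) (af r 0) (af r 1) (af r 2) = E c (ch b r 0) (ch b r 1) (ch b r 2) := by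
  have e0 : ∀ (b : Bool) (x : Fin 2 → F) (i : Fin 3),
      mon x i = mon (if b then sp x else x) (if b then Fin.rev i else i) := by
    intro b x i
    cases b
    · rfl
    · simp only [if_true]
      rw [mon_sp, Fin.rev_rev]
  have e1 : ∀ i, ch b r i = if b i then sp (af r i) else af r i := by
    intro i
    unfold ch sp af
    rfl
  have sr : ∀ (b : Bool) (g : Fin 3 → F), ∑ i, g (if b then Fin.rev i else i) = ∑ i, g i := by
    intro b g
    cases b
    · rfl
    · exact sum_rev g
  rw [E_expand, E_expand]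
  unfold flp
  calc _ = ∑ i, ∑ j, ∑ k, c (if b 0 then Fin.rev i else i) (if b 1 then Fin.rev j else j)
        (if b 2 then Fin.rev k else k) * (mon (ch b r 0) (if b 0 then Fin.rev i else i) *
          (mon (ch b r 1) (if b 1 then Fin.rev j else j) *
            mon (ch b r 2) (if b 2 then Fin.rev k else k))) := by
        refine Finset.sum_congr rfl fun i _ => Finset.sum_congr rfl fun j _ =>
          Finset.sum_congr rfl fun k _ => ?_
        rw [e0 (b 0) (af r 0) i, e0 (b 1) (af r 1) j, e0 (b 2) (af r 2) k, e1, e1, e1]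
    _ = ∑ i, ∑ j, ∑ k, c (if b 0 then Fin.rev i else i) (if b 1 then Fin.rev j else j) k *
          (mon (ch b r 0) (if b 0 then Fin.rev i else i) *
            (mon (ch b r 1) (if b 1 then Fin.rev j else j) * mon (ch b r 2) k)) := by
        refine Finset.sum_congr rfl fun i _ => Finset.sum_congr rfl fun j _ => ?_
        exact sr (b 2) fun k => c (if b 0 then Fin.rev i else i) (if b 1 then Fin.rev j else j) k *
          (mon (ch b r 0) (if b 0 then Fin.rev i else i) *
            (mon (ch b r 1) (if b 1 then Fin.rev j else j) * mon (ch b r 2) k))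
    _ = ∑ i, ∑ j, ∑ k, c (if b 0 then Fin.rev i else i) j k *
          (mon (ch b r 0) (if b 0 then Fin.rev i else i) * (mon (ch b r 1) j *
            mon (ch b r 2) k)) := by
        refine Finset.sum_congr rfl fun i _ => ?_
        exact sr (b 1) fun j => ∑ k, c (if b 0 then Fin.rev i else i) j k *
          (mon (ch b r 0) (if b 0 then Fin.rev i else i) * (mon (ch b r 1) j *
            mon (ch b r 2) k))
    _ = _ := sr (b 0) fun i => ∑ j, ∑ k, c i j k *
          (mon (ch b r 0) i * (mon (ch b r 1) j * mon (ch b r 2) k))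

end flip

section rational

/-- the hypotheses on the covering surface -/
structure Adm2 {K : Type} [Field K] (F : MvPolynomial (Fin 3 × Fin 2) K) : Prop where
  noFibre : ∀ (i : Fin 3) (p : Fin 3 → Fin 2 → AlgebraicClosure K), (∀ j, p j ≠ 0) →
    ∃ w : Fin 2 → AlgebraicClosure K,
      aeval (fun q : Fin 3 × Fin 2 => Function.update p i w q.1 q.2) F ≠ 0
  isolated : ∃ S : Set (Fin 3 → Fin 2 → AlgebraicClosure K), S.Finite ∧
    ∀ p : Fin 3 → Fin 2 → AlgebraicClosure K, (∀ i, p i ≠ 0) →
      (∀ q : Fin 3 × Fin 2, aeval (fun r : Fin 3 × Fin 2 => p r.1 r.2) (pderiv q F) = 0) →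
      ∃ s ∈ S, ∀ i, ∃ t : AlgebraicClosure K, p i = t • s i

/-- the hypotheses are stable under twists -/
theorem Adm2.twist {K : Type} [Field K] {c : I → K} (h : Adm2 (form (arr 1 c))) {d : K}
    (hd : d ≠ 0) : Adm2 (form (arr d c)) := by
  obtain ⟨δ, hδ⟩ := exists_sqrt d
  have hδ0 : δ ≠ 0 := by
    rintro rfl
    rw [zero_pow two_ne_zero] at hδ
    exact hd ((map_eq_zero _).1 hδ.symm)
  refine ⟨?_, ?_⟩
  · intro i p hp
    obtain ⟨w, hw⟩ := h.noFibre i (scl δ p) (fun j => scl_ne hδ0 (hp j))
    refine ⟨fun a => (δ ^ (a : ℕ))⁻¹ * w a, ?_⟩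
    rw [aeval_arr hδ]
    have e : (fun q : Fin 3 × Fin 2 => scl δ (Function.update p i
        fun a : Fin 2 => (δ ^ (a : ℕ))⁻¹ * w a) q.1 q.2) =
        fun q => Function.update (scl δ p) i w q.1 q.2 := by
      funext q
      obtain ⟨j, a⟩ := q
      by_cases hj : j = i
      · subst hj
        simp only [scl, Function.update_self]
        rw [mul_inv_cancel_left₀ (pow_ne_zero _ hδ0)]
      · simp only [scl, Function.update_of_ne hj]
    rw [e]
    exact hw
  · obtain ⟨S, hS, hS'⟩ := h.isolated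
    refine ⟨(fun s => scl δ⁻¹ s) '' S, hS.image _, fun p hp hq => ?_⟩
    obtain ⟨s, hs, hs'⟩ := hS' (scl δ p) (fun j => scl_ne hδ0 (hp j)) (fun q => by
      have h1 := hq q
      rw [aeval_pderiv_arr hδ] at h1
      exact (mul_eq_zero.1 h1).resolve_left (pow_ne_zero _ hδ0))
    refine ⟨_, ⟨s, hs, rfl⟩, fun i => ?_⟩
    obtain ⟨t, ht⟩ := hs' i
    refine ⟨t, ?_⟩
    funext a
    have h1 := congrFun ht a
    simp only [scl, Pi.smul_apply, smul_eq_mul] at h1 ⊢
    have h2 : δ ^ (a : ℕ) ≠ 0 := pow_ne_zero _ hδ0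
    rw [inv_pow, mul_left_comm, ← h1, inv_mul_cancel_left₀ h2]

/-- the rational points of one chart of one twist -/
def Pc (c : I → ℚ) (d : ℚ) (b : Fin 3 → Bool) : Set (I → ℚ) :=
  {z | ∃ (r : Fin 3 → ℚ) (s : ℚ), E (flp b (arr d c)) (af r 0) (af r 1) (af r 2) = 0 ∧ s ≠ 0 ∧
    ∀ k, z k = s * tw d (ch b r) k}

lemma SA_Pc {c : I → ℚ} {d : ℚ} (hN : Nice (arr d c)) (b : Fin 3 → Bool) :
    SA (closure ((fun (z : I → ℚ) k => Rat.castHom ℝ (z k)) '' Pc c d b)) := by
  classical
  obtain ⟨T, -, -, hT⟩ := tri_main (Nice_flp b hN)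
  have h1 := (hT (Rat.castHom ℝ)).1
  set S : Set (Fin 3 → ℚ) := {r | E (flp b (arr d c)) (af r 0) (af r 1) (af r 2) = 0} with hS
  have h2 : VK (flp b (arr d c)) (Rat.castHom ℝ) =
      (fun (r : Fin 3 → ℚ) i => Rat.castHom ℝ (r i)) '' S := by
    ext x
    constructor
    · rintro ⟨r, hr, rfl⟩
      exact ⟨r, hr, rfl⟩
    · rintro ⟨r, hr, rfl⟩
      exact ⟨r, hr, rfl⟩
  rw [h2] at h1
  set pr : Fin 3 → MvPolynomial ((Unit × Fin 3) ⊕ Unit) ℚ := fun i => X (Sum.inl ((), i)) with hpr
  set sv : MvPolynomial ((Unit × Fin 3) ⊕ Unit) ℚ := X (Sum.inr ()) with hsv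
  have h3 := Pool.Agent.TH729.BQ.vals_SA (ι := Unit) (κ := Unit) (n := Fin 3)
    (S := fun _ => S) (fun _ => h1) (m := I) (fun k => sv * sv * tw (C d) (ch b pr) k) sv
  convert h3 using 2
  ext y
  have hev : ∀ (x : Unit → Fin 3 → ℚ) (u : Unit → ℚ) (k : I),
      eval (Sum.elim (fun r : Unit × Fin 3 => x r.1 r.2) u) (tw (C d) (ch b pr) k) =
        tw d (ch b (x ())) k := by
    intro x u k
    rw [tw_hom]
    congr 1
    · simp
    · funext i a
      unfold ch
      split_ifs
      · fin_cases a <;> simp [hpr]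
      · fin_cases a <;> simp [hpr]
  have hes : ∀ (x : Unit → Fin 3 → ℚ) (u : Unit → ℚ),
      eval (Sum.elim (fun r : Unit × Fin 3 => x r.1 r.2) u) sv = u () := by
    intro x u
    simp [hsv]
  constructor
  · rintro ⟨z, ⟨r, s, hr, hs, hz⟩, rfl⟩
    refine ⟨fun _ => r, fun _ => s, fun _ => hr, ?_, fun k => ?_⟩
    · exact (hes (fun _ => r) (fun _ => s)).trans_ne hs
    · have g1 := hes (fun _ => r) (fun _ => s)
      have g2 := hev (fun _ => r) (fun _ => s) k
      rw [map_mul, map_mul]
      simp only [g1, g2]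
      rw [hz k, eq_ratCast]
      congr 1
      field_simp
  · rintro ⟨x, u, hx, hq, hy⟩
    rw [hes] at hq
    refine ⟨fun k => u () * tw d (ch b (x ())) k, ⟨x (), u (), hx (), hq, fun k => rfl⟩, ?_⟩
    funext k
    rw [hy k, map_mul, map_mul, hes, hev]
    simp only [eq_ratCast]
    congr 1
    field_simp

/-- finite unions -/
lemma SA_closure_biUnion {m : Type} [Finite m] {α : Type*} {D : Set α} (hD : D.Finite)
    {S : α → Set (m → ℝ)} (h : ∀ a ∈ D, SA (closure (S a))) : SA (closure (⋃ a ∈ D, S a)) := by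
  classical
  rw [hD.closure_biUnion]
  have := SAP.exists_mem hD.toFinset (p := fun a x => x ∈ closure (S a))
    (fun a ha => h a (hD.mem_toFinset.1 ha))
  refine SAP.congr (q := fun x => x ∈ ⋃ a ∈ D, closure (S a)) this fun x => ?_
  simp

/-- **The closure of the set of the rational points (all representatives) of the quotient.** -/
theorem SA_cone {c : I → ℚ} (hc : ∀ k : I, (∀ i, k.1 i ≠ 1) → c k ≠ 0)
    (hF : Adm2 (form (arr 1 c))) :
    SA (closure ((fun (z : I → ℚ) k => Rat.castHom ℝ (z k)) ''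
      {z | OnX (RingHom.id ℚ) c z})) := by
  classical
  obtain ⟨D, hDf, hD0, hD⟩ := exists_twists hc
  have hd : ∀ d ∈ D, d ≠ 0 := fun d hd h0 => hD0 (h0 ▸ hd)
  have hU : {z | OnX (RingHom.id ℚ) c z} = ⋃ q ∈ D ×ˢ (Set.univ : Set (Fin 3 → Bool)),
      Pc c q.1 q.2 := by
    ext z
    simp only [Set.mem_iUnion, Set.mem_prod, Set.mem_univ, and_true, exists_prop, Prod.exists]
    constructor
    · intro hz
      obtain ⟨d, p, hd0, hp⟩ := exists_rep hz.2.1 hz.1
      have h1 := E_of_onX (RingHom.id ℚ) (d := d) hz hp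
      obtain ⟨e, he, w, hw, hdw⟩ := hD d p hd0 hp.1 (by
        rw [sum_E]
        exact h1)
      have hp2 : RepD z e (fun i => ![p i 0, w * p i 1]) := by
        refine RepD.twist hw ?_
        rw [← hdw]
        exact hp
      set p' : Fin 3 → Fin 2 → ℚ := fun i => ![p i 0, w * p i 1] with hp'
      have hE := E_of_onX (RingHom.id ℚ) (d := e) hz hp2
      obtain ⟨hp0, s, hs, hzs⟩ := hp2
      -- the chart
      set b : Fin 3 → Bool := fun i => decide (p' i 1 = 0) with hb
      set t : Fin 3 → ℚ := fun i => if b i then p' i 0 else p' i 1 with ht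
      have ht0 : ∀ i, t i ≠ 0 := by
        intro i
        simp only [ht, hb]
        by_cases h : p' i 1 = 0
        · simp only [h, decide_true, if_true]
          intro h0
          apply hp0 i
          funext a
          fin_cases a
          · exact h0
          · exact h
        · simp only [h, decide_false]
          exact h
      set r : Fin 3 → ℚ := fun i => if b i then p' i 1 / p' i 0 else p' i 0 / p' i 1 with hr
      have hpr : p' = fun i a => t i * ch b r i a := by
        funext i a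
        have := ht0 i
        simp only [ht] at this
        simp only [ch, ht, hr]
        cases hbi : b i
        · rw [hbi] at this
          simp only [Bool.false_eq_true, if_false] at this ⊢
          fin_cases a
          · simp; field_simp
          · simp
        · rw [hbi] at this
          simp only [if_true] at this ⊢
          fin_cases a
          · simp
          · simp; field_simp
      refine ⟨e, b, he, r, s * (t 0 * t 1 * t 2) ^ 2, ?_, ?_, fun k => ?_⟩
      · rw [E_flp]
        rw [hpr] at hE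
        have hE2 : E (arr e c) (fun a => t 0 * ch b r 0 a) (fun a => t 1 * ch b r 1 a)
            (fun a => t 2 * ch b r 2 a) = 0 := hE
        rw [← sum_E (p := fun i a => t i * ch b r i a)] at hE2
        rw [← sum_E]
        simp only [tw_smul] at hE2
        have h5 : (t 0 * t 1 * t 2) ^ 2 * ∑ k, c k * tw e (ch b r) k = 0 := by
          rw [← hE2, Finset.mul_sum]
          refine Finset.sum_congr rfl fun k _ => ?_
          ring
        exact (mul_eq_zero.1 h5).resolve_left
          (pow_ne_zero 2 (mul_ne_zero (mul_ne_zero (ht0 0) (ht0 1)) (ht0 2)))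
      · exact mul_ne_zero hs (pow_ne_zero 2 (mul_ne_zero (mul_ne_zero (ht0 0) (ht0 1)) (ht0 2)))
      · rw [hzs k, hpr, tw_smul]
        ring
    · rintro ⟨d, b, hdD, r, s, hE, hs, hz⟩
      rw [E_flp] at hE
      have hch : ∀ i, ch b r i ≠ 0 := by
        intro i h0
        unfold ch at h0
        split_ifs at h0
        · have := congrFun h0 0
          simp at this
        · have := congrFun h0 1
          simp at this
      have h1 := onX_tw (RingHom.id ℚ) (c := c) (hd d hdD) hch hE
      obtain ⟨h2, h3, h4⟩ := h1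
      have hz' : z = fun k => s * tw d (ch b r) k := funext hz
      refine ⟨?_, ?_, ?_⟩
      · intro h0
        apply h2
        funext k
        have := congrFun h0 k
        rw [hz k, Pi.zero_apply] at this
        exact (mul_eq_zero.1 this).resolve_left hs
      · rw [hz']
        exact h3.smul s
      · rw [hz']
        simp only [RingHom.id_apply] at h4 ⊢
        have h5 : ∑ k, c k * (s * tw d (ch b r) k) = s * ∑ k, c k * tw d (ch b r) k := by
          rw [Finset.mul_sum]
          exact Finset.sum_congr rfl fun k _ => by ring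
        rw [h5, h4, mul_zero]
  rw [hU, Set.image_iUnion₂]
  refine SA_closure_biUnion (hDf.prod Set.finite_univ) fun q hq => ?_
  have hq1 : q.1 ∈ D := hq.1
  have hA := hF.twist (hd q.1 hq1)
  exact SA_Pc (nice_of hA.noFibre hA.isolated) q.2

end rational

end Pool.Agent.X296.Enr
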