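import Pool.Agent.W279.Tri.Tridegree

/-!
# The quotient of the product of three projective lines by the diagonal sign change (helper296)
-/

set_option autoImplicit false

namespace Pool.Agent.X296.Enr

open Pool.Agent.W279.Tri

/-- the indices of the monomials of tridegree (2,2,2) which are invariant under the sign change -/
abbrev I : Type := {k : Fin 3 → Fin 3 // Even ((k 0 : ℕ) + k 1 + k 2)}

/-- an index -/
def ix (a b c : Fin 3) (h : Even ((a : ℕ) + b + c)) : I := ⟨![a, b, c], h⟩

section ring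

variable {R : Type*} [CommRing R]

/-- the monomials of tridegree (2,2,2) -/
def mo (p : Fin 3 → Fin 2 → R) (k : Fin 3 → Fin 3) : R :=
  mon (p 0) (k 0) * mon (p 1) (k 1) * mon (p 2) (k 2)

/-- half the weight -/
def wt (k : Fin 3 → Fin 3) : ℕ := ((k 0 : ℕ) + k 1 + k 2) / 2

/-- the invariant monomials, twisted by `d` -/
def tw (d : R) (p : Fin 3 → Fin 2 → R) (k : I) : R := d ^ wt k.1 * mo p k.1

/-- the equations of the quotient -/
def Toric (z : I → R) : Prop :=
  ∀ k l m n : I, (∀ i, (k.1 i : ℕ) + l.1 i = m.1 i + n.1 i) → z k * z l = z m * z n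

lemma mon_eq (x : Fin 2 → R) (i : Fin 3) : mon x i = x 0 ^ (2 - (i : ℕ)) * x 1 ^ (i : ℕ) := by
  fin_cases i <;> simp [mon]

lemma mon_mul_mon (x : Fin 2 → R) (i j : Fin 3) :
    mon x i * mon x j = x 0 ^ (4 - ((i : ℕ) + j)) * x 1 ^ ((i : ℕ) + j) := by
  fin_cases i <;> fin_cases j <;> simp [mon] <;> ring

lemma wt_two (k : I) : 2 * wt k.1 = (k.1 0 : ℕ) + k.1 1 + k.1 2 := by
  unfold wt
  obtain ⟨r, hr⟩ := k.2
  omega

lemma tw_toric (d : R) (p : Fin 3 → Fin 2 → R) : Toric (tw d p) := by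
  intro k l m n h
  have hw : wt k.1 + wt l.1 = wt m.1 + wt n.1 := by
    have h1 := wt_two k
    have h2 := wt_two l
    have h3 := wt_two m
    have h4 := wt_two n
    have := h 0
    have := h 1
    have := h 2
    omega
  have e : ∀ k l : I, tw d p k * tw d p l = d ^ (wt k.1 + wt l.1) *
      ((mon (p 0) (k.1 0) * mon (p 0) (l.1 0)) * (mon (p 1) (k.1 1) * mon (p 1) (l.1 1)) *
        (mon (p 2) (k.1 2) * mon (p 2) (l.1 2))) := by
    intro k l
    simp only [tw, mo, pow_add]
    ring
  rw [e, e, hw]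
  simp only [mon_mul_mon, h]

lemma Toric.smul {z : I → R} (h : Toric z) (s : R) : Toric (fun k => s * z k) := by
  intro k l m n hk
  have := h k l m n hk
  simp only
  linear_combination s ^ 2 * this

/-- the flip of one coordinate of an index -/
def fl (i : Fin 3) (k : I) : I :=
  ⟨Function.update k.1 i (Fin.rev (k.1 i)), by
    have h := k.2
    fin_cases i
    · simp only [Function.update_apply, Fin.zero_eta]
      simp
      have := (k.1 0).2
      rw [Nat.even_iff] at h ⊢
      omega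
    · simp only [Function.update_apply]
      simp
      have := (k.1 1).2
      rw [Nat.even_iff] at h ⊢
      omega
    · simp only [Function.update_apply]
      simp
      have := (k.1 2).2
      rw [Nat.even_iff] at h ⊢
      omega⟩

lemma fl_val (i : Fin 3) (k : I) (j : Fin 3) :
    ((fl i k).1 j : ℕ) = if j = i then 2 - (k.1 i : ℕ) else k.1 j := by
  unfold fl
  simp only [Function.update_apply]
  split_ifs with h
  · rw [Fin.val_rev]
    omega
  · rfl

lemma fl_fl (i : Fin 3) (k : I) : fl i (fl i k) = k := by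
  apply Subtype.ext
  funext j
  apply Fin.ext
  have h1 := fl_val i (fl i k) j
  have h2 := fl_val i k i
  have h3 := fl_val i k j
  rw [h1]
  rw [if_pos rfl] at h2
  have := (k.1 i).2
  split_ifs at h3 ⊢ with h
  · subst h; omega
  · omega

lemma Toric.fl {z : I → R} (h : Toric z) (i : Fin 3) : Toric (fun k => z (fl i k)) := by
  intro k l m n hk
  refine h _ _ _ _ fun j => ?_
  rw [fl_val, fl_val, fl_val, fl_val]
  have a1 := (k.1 i).2
  have a2 := (l.1 i).2
  have a3 := (m.1 i).2
  have a4 := (n.1 i).2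
  have := hk j
  have := hk i
  split_ifs <;> omega

end ring

section field

variable {F : Type*} [Field F]

/-- `z` is a point of the quotient with the representative `p`, twisted by `d` -/
def RepD (z : I → F) (d : F) (p : Fin 3 → Fin 2 → F) : Prop :=
  (∀ i, p i ≠ 0) ∧ ∃ s : F, s ≠ 0 ∧ ∀ k, z k = s * tw d p k

lemma agree {z z' : I → F} (h : Toric z) (h' : Toric z') (h0 : z (ix 0 0 0 (by decide)) ≠ 0)
    (e0 : z (ix 0 0 0 (by decide)) = z' (ix 0 0 0 (by decide)))
    (e1 : z (ix 2 0 0 (by decide)) = z' (ix 2 0 0 (by decide)))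
    (e2 : z (ix 0 2 0 (by decide)) = z' (ix 0 2 0 (by decide)))
    (e3 : z (ix 0 0 2 (by decide)) = z' (ix 0 0 2 (by decide)))
    (e4 : z (ix 1 1 0 (by decide)) = z' (ix 1 1 0 (by decide)))
    (e5 : z (ix 1 0 1 (by decide)) = z' (ix 1 0 1 (by decide)))
    (e6 : z (ix 0 1 1 (by decide)) = z' (ix 0 1 1 (by decide))) : z = z' := by
  have step : ∀ k m n : I, (∀ i, (k.1 i : ℕ) + (ix 0 0 0 (by decide)).1 i = m.1 i + n.1 i) →
      z m = z' m → z n = z' n → z k = z' k := by
    intro k m n hk hm hn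
    have a1 := h _ _ _ _ hk
    have a2 := h' _ _ _ _ hk
    rw [hm, hn, ← a2, ← e0] at a1
    exact mul_right_cancel₀ h0 a1
  have f1 := step (ix 2 2 0 (by decide)) (ix 2 0 0 (by decide)) (ix 0 2 0 (by decide))
    (by decide) e1 e2
  have f2 := step (ix 2 0 2 (by decide)) (ix 2 0 0 (by decide)) (ix 0 0 2 (by decide))
    (by decide) e1 e3
  have f3 := step (ix 0 2 2 (by decide)) (ix 0 2 0 (by decide)) (ix 0 0 2 (by decide))
    (by decide) e2 e3
  have f4 := step (ix 2 2 2 (by decide)) (ix 2 2 0 (by decide)) (ix 0 0 2 (by decide))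
    (by decide) f1 e3
  have f5 := step (ix 1 1 2 (by decide)) (ix 1 1 0 (by decide)) (ix 0 0 2 (by decide))
    (by decide) e4 e3
  have f6 := step (ix 1 2 1 (by decide)) (ix 1 0 1 (by decide)) (ix 0 2 0 (by decide))
    (by decide) e5 e2
  have f7 := step (ix 2 1 1 (by decide)) (ix 0 1 1 (by decide)) (ix 2 0 0 (by decide))
    (by decide) e6 e1
  funext k
  obtain ⟨k, hk⟩ := k
  obtain ⟨a, ha⟩ : ∃ a, a = k 0 := ⟨_, rfl⟩
  obtain ⟨b, hb⟩ : ∃ b, b = k 1 := ⟨_, rfl⟩
  obtain ⟨c, hc⟩ : ∃ c, c = k 2 := ⟨_, rfl⟩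
  have hk' : k = ![a, b, c] := by
    funext i
    fin_cases i
    · exact ha.symm
    · exact hb.symm
    · exact hc.symm
  subst hk'
  fin_cases a <;> fin_cases b <;> fin_cases c <;>
    first
      | exact absurd hk (by decide)
      | exact e0 | exact e1 | exact e2 | exact e3 | exact e4 | exact e5 | exact e6
      | exact f1 | exact f2 | exact f3 | exact f4 | exact f5 | exact f6 | exact f7

/-- the points with a nonzero first coordinate -/
lemma rep0 {z : I → F} (h : Toric z) (h0 : z (ix 0 0 0 (by decide)) ≠ 0) :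
    ∃ (d : F) (p : Fin 3 → Fin 2 → F), d ≠ 0 ∧ RepD z d p := by
  set z0 := z (ix 0 0 0 (by decide)) with hz0
  set A0 := z (ix 2 0 0 (by decide)) with hA0
  set A1 := z (ix 0 2 0 (by decide)) with hA1
  set A2 := z (ix 0 0 2 (by decide)) with hA2
  set B01 := z (ix 1 1 0 (by decide)) with hB01
  set B02 := z (ix 1 0 1 (by decide)) with hB02
  set B12 := z (ix 0 1 1 (by decide)) with hB12
  have r1 : B01 * B01 = A0 * A1 := h _ _ _ _ (by decide)
  have r2 : B02 * B02 = A0 * A2 := h _ _ _ _ (by decide)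
  have r3 : B12 * B12 = A1 * A2 := h _ _ _ _ (by decide)
  have r4 : B01 * B02 = A0 * B12 := h _ _ _ _ (by decide)
  have r5 : B01 * B12 = A1 * B02 := h _ _ _ _ (by decide)
  have r6 : B02 * B12 = A2 * B01 := h _ _ _ _ (by decide)
  have key : ∀ (d t0 t1 t2 : F), d ≠ 0 → A0 = z0 * d * t0 ^ 2 → A1 = z0 * d * t1 ^ 2 →
      A2 = z0 * d * t2 ^ 2 → B01 = z0 * d * (t0 * t1) → B02 = z0 * d * (t0 * t2) →
      B12 = z0 * d * (t1 * t2) →
      ∃ (d : F) (p : Fin 3 → Fin 2 → F), d ≠ 0 ∧ RepD z d p := by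
    intro d t0 t1 t2 hd g1 g2 g3 g4 g5 g6
    refine ⟨d, ![![1, t0], ![1, t1], ![1, t2]], hd, ?_, z0, h0, ?_⟩
    · intro i hi
      have := congrFun hi 0
      fin_cases i <;> simp at this
    · have := agree h ((tw_toric d ![![1, t0], ![1, t1], ![1, t2]]).smul z0) h0 ?_ ?_ ?_ ?_ ?_ ?_ ?_
      · exact fun k => congrFun this k
      all_goals simp only [tw, mo, wt, ix, mon]
      · simp [hz0, ix]
      · simp; rw [← mul_assoc]; exact g1
      · simp; rw [← mul_assoc]; exact g2
      · simp; rw [← mul_assoc]; exact g3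
      · simp; rw [← mul_assoc]; exact g4
      · simp; rw [← mul_assoc]; exact g5
      · simp; rw [← mul_assoc]; exact g6
  by_cases c0 : A0 = 0
  · have b1 : B01 = 0 := by
      rw [c0, zero_mul] at r1
      exact mul_self_eq_zero.1 r1
    have b2 : B02 = 0 := by
      rw [c0, zero_mul] at r2
      exact mul_self_eq_zero.1 r2
    by_cases c1 : A1 = 0
    · have b3 : B12 = 0 := by
        rw [c1, zero_mul] at r3
        exact mul_self_eq_zero.1 r3
      by_cases c2 : A2 = 0
      · exact key 1 0 0 0 one_ne_zero (by rw [c0]; ring) (by rw [c1]; ring) (by rw [c2]; ring)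
          (by rw [b1]; ring) (by rw [b2]; ring) (by rw [b3]; ring)
      · exact key (A2 / z0) 0 0 1 (div_ne_zero c2 h0) (by rw [c0]; ring) (by rw [c1]; ring)
          (by field_simp) (by rw [b1]; ring) (by rw [b2]; ring) (by rw [b3]; ring)
    · refine key (A1 / z0) 0 1 (B12 / A1) (div_ne_zero c1 h0) (by rw [c0]; ring) (by field_simp)
        ?_ (by rw [b1]; ring) (by rw [b2]; ring) (by field_simp)
      field_simp
      linear_combination -r3
  · refine key (A0 / z0) 1 (B01 / A0) (B02 / A0) (div_ne_zero c0 h0) (by field_simp)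
      ?_ ?_ (by field_simp) (by field_simp) ?_
    · field_simp
      linear_combination -r1
    · field_simp
      linear_combination -r2
    · field_simp
      linear_combination -r4

lemma mon_rev (x : Fin 2 → F) {d : F} (hd : d ≠ 0) {k k' : Fin 3} (h : (k' : ℕ) = 2 - (k : ℕ)) :
    mon x k' = mon ![x 1, x 0 / d] k * d ^ (k : ℕ) := by
  have hk := k.2
  have h2 : 2 - (k' : ℕ) = k := by omega
  rw [mon_eq, mon_eq, h2, h]
  simp only [Matrix.cons_val_zero, Matrix.cons_val_one, div_pow]
  field_simp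

lemma wt_fl (i : Fin 3) (k : I) : wt (fl i k).1 + (k.1 i : ℕ) = wt k.1 + 1 := by
  have h1 := wt_two k
  have h2 := wt_two (fl i k)
  have h3 := fl_val i k 0
  have h4 := fl_val i k 1
  have h5 := fl_val i k 2
  have h6 := (k.1 i).2
  obtain rfl | rfl | rfl : i = 0 ∨ i = 1 ∨ i = 2 := by fin_cases i <;> simp
  all_goals
    simp at h3 h4 h5
    omega

/-- the representatives after a flip -/
lemma rep_fl {z : I → F} {i : Fin 3} {d : F} (hd : d ≠ 0) {p : Fin 3 → Fin 2 → F}
    (h : RepD (fun k => z (fl i k)) d p) :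
    RepD z d (Function.update p i ![p i 1, p i 0 / d]) := by
  obtain ⟨hp, s, hs, h⟩ := h
  refine ⟨fun j hj => ?_, s * d, mul_ne_zero hs hd, fun k => ?_⟩
  · by_cases hij : j = i
    · subst hij
      rw [Function.update_self] at hj
      have h0 := congrFun hj 0
      have h1 := congrFun hj 1
      simp only [Matrix.cons_val_zero, Matrix.cons_val_one, Pi.zero_apply, div_eq_zero_iff, hd,
        or_false] at h0 h1
      apply hp j
      funext a
      fin_cases a
      · exact h1
      · exact h0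
    · rw [Function.update_of_ne hij] at hj
      exact hp j hj
  · have h1 := h (fl i k)
    simp only [fl_fl] at h1
    rw [h1]
    have h2 := wt_fl i k
    have h3 : mo p (fl i k).1 = mo (Function.update p i ![p i 1, p i 0 / d]) k.1 *
        d ^ (k.1 i : ℕ) := by
      have e : ∀ j, j ≠ i → (fl i k).1 j = k.1 j := fun j hj => by
        apply Fin.ext
        rw [fl_val, if_neg hj]
      have e' : ((fl i k).1 i : ℕ) = 2 - (k.1 i : ℕ) := by rw [fl_val, if_pos rfl]
      have e2 := mon_rev (p i) hd e'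
      unfold mo
      fin_cases i
      · simp only [Fin.zero_eta] at e e2 ⊢
        rw [e2, e 1 (by decide), e 2 (by decide)]
        simp only [Function.update_self, Function.update_of_ne (show (1 : Fin 3) ≠ 0 by decide),
          Function.update_of_ne (show (2 : Fin 3) ≠ 0 by decide)]
        ring
      · simp only [Fin.mk_one] at e e2 ⊢
        rw [e2, e 0 (by decide), e 2 (by decide)]
        simp only [Function.update_self, Function.update_of_ne (show (0 : Fin 3) ≠ 1 by decide),
          Function.update_of_ne (show (2 : Fin 3) ≠ 1 by decide)]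
        ring
      · simp only [Fin.reduceFinMk] at e e2 ⊢
        rw [e2, e 0 (by decide), e 1 (by decide)]
        simp only [Function.update_self, Function.update_of_ne (show (0 : Fin 3) ≠ 2 by decide),
          Function.update_of_ne (show (1 : Fin 3) ≠ 2 by decide)]
        ring
    unfold tw
    rw [h3]
    have h4 : d ^ wt (fl i k).1 * d ^ (k.1 i : ℕ) = d ^ wt k.1 * d := by
      rw [← pow_add, h2, pow_succ]
    linear_combination s * mo (Function.update p i ![p i 1, p i 0 / d]) k.1 * h4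

/-- a coordinate at a corner is not zero -/
lemma exists_corner {z : I → F} (h : Toric z) (h0 : z ≠ 0) :
    ∃ k : I, (∀ i, k.1 i ≠ 1) ∧ z k ≠ 0 := by
  obtain ⟨k, hk⟩ := Function.ne_iff.1 h0
  simp only [Pi.zero_apply] at hk
  by_contra hn
  push Not at hn
  have step : ∀ l m : I, (∀ i, m.1 i ≠ 1) →
      ((k.1 0 : ℕ) + k.1 0 = l.1 0 + m.1 0 ∧ (k.1 1 : ℕ) + k.1 1 = l.1 1 + m.1 1 ∧
        (k.1 2 : ℕ) + k.1 2 = l.1 2 + m.1 2) → False := by
    intro l m hm hkl
    have h1 := h k k l m (fun i => by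
      fin_cases i
      · exact hkl.1
      · exact hkl.2.1
      · exact hkl.2.2)
    rw [hn m hm, mul_zero] at h1
    exact hk (mul_self_eq_zero.1 h1)
  obtain ⟨k, hk'⟩ := k
  obtain ⟨a, ha⟩ : ∃ a, a = k 0 := ⟨_, rfl⟩
  obtain ⟨b, hb⟩ : ∃ b, b = k 1 := ⟨_, rfl⟩
  obtain ⟨c, hc⟩ : ∃ c, c = k 2 := ⟨_, rfl⟩
  have hk2 : k = ![a, b, c] := by
    funext i
    fin_cases i
    · exact ha.symm
    · exact hb.symm
    · exact hc.symm
  subst hk2
  replace step : ∀ l m : I, (∀ i, m.1 i ≠ 1) →
      ((a : ℕ) + a = l.1 0 + m.1 0 ∧ (b : ℕ) + b = l.1 1 + m.1 1 ∧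
        (c : ℕ) + c = l.1 2 + m.1 2) → False := step
  have hcor : a = 1 ∨ b = 1 ∨ c = 1 := by
    by_contra hcon
    push Not at hcon
    refine hk (hn _ fun i => ?_)
    fin_cases i
    · exact hcon.1
    · exact hcon.2.1
    · exact hcon.2.2
  fin_cases a <;> fin_cases b <;> fin_cases c <;>
    first
      | exact absurd hk' (by decide)
      | (exfalso; revert hcor; decide)
      | exact step (ix 2 2 0 (by decide)) (ix 0 0 0 (by decide)) (by decide) (by decide)
      | exact step (ix 2 2 2 (by decide)) (ix 0 0 2 (by decide)) (by decide) (by decide)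
      | exact step (ix 2 0 2 (by decide)) (ix 0 0 0 (by decide)) (by decide) (by decide)
      | exact step (ix 2 2 2 (by decide)) (ix 0 2 0 (by decide)) (by decide) (by decide)
      | exact step (ix 0 2 2 (by decide)) (ix 0 0 0 (by decide)) (by decide) (by decide)
      | exact step (ix 2 2 2 (by decide)) (ix 2 0 0 (by decide)) (by decide) (by decide)

lemma ne_of_eq_ne {z : I → F} {k k' : I} (e : k = k') (hk : z k' ≠ 0) : z k ≠ 0 := by
  rw [e]; exact hk

/-- **The points of the quotient.** -/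
theorem exists_rep {z : I → F} (h : Toric z) (h0 : z ≠ 0) :
    ∃ (d : F) (p : Fin 3 → Fin 2 → F), d ≠ 0 ∧ RepD z d p := by
  have fli : ∀ (i : Fin 3) (z : I → F), (∃ (d : F) (p : Fin 3 → Fin 2 → F),
      d ≠ 0 ∧ RepD (fun k => z (fl i k)) d p) →
      ∃ (d : F) (p : Fin 3 → Fin 2 → F), d ≠ 0 ∧ RepD z d p := by
    rintro i z ⟨d, p, hd, hp⟩
    exact ⟨d, _, hd, rep_fl hd hp⟩
  obtain ⟨k, hk1, hk⟩ := exists_corner h h0
  obtain ⟨k, hk'⟩ := k
  obtain ⟨a, ha⟩ : ∃ a, a = k 0 := ⟨_, rfl⟩
  obtain ⟨b, hb⟩ : ∃ b, b = k 1 := ⟨_, rfl⟩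
  obtain ⟨c, hc⟩ : ∃ c, c = k 2 := ⟨_, rfl⟩
  have hk2 : k = ![a, b, c] := by
    funext i
    fin_cases i
    · exact ha.symm
    · exact hb.symm
    · exact hc.symm
  subst hk2
  have g0 := hk1 0
  have g1 := hk1 1
  have g2 := hk1 2
  simp only [Matrix.cons_val_zero, Matrix.cons_val_one, Matrix.cons_val] at g0 g1 g2
  fin_cases a <;> fin_cases b <;> fin_cases c <;>
    first
      | exact absurd rfl g0
      | exact absurd rfl g1
      | exact absurd rfl g2
      | exact rep0 h hk
      | exact fli 0 _ (rep0 (h.fl 0) (ne_of_eq_ne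
          (by decide : fl 0 (ix 0 0 0 (by decide)) = ix 2 0 0 (by decide)) hk))
      | exact fli 1 _ (rep0 (h.fl 1) (ne_of_eq_ne
          (by decide : fl 1 (ix 0 0 0 (by decide)) = ix 0 2 0 (by decide)) hk))
      | exact fli 2 _ (rep0 (h.fl 2) (ne_of_eq_ne
          (by decide : fl 2 (ix 0 0 0 (by decide)) = ix 0 0 2 (by decide)) hk))
      | exact fli 0 _ (fli 1 _ (rep0 ((h.fl 0).fl 1) (ne_of_eq_ne
          (by decide : fl 0 (fl 1 (ix 0 0 0 (by decide))) = ix 2 2 0 (by decide)) hk)))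
      | exact fli 0 _ (fli 2 _ (rep0 ((h.fl 0).fl 2) (ne_of_eq_ne
          (by decide : fl 0 (fl 2 (ix 0 0 0 (by decide))) = ix 2 0 2 (by decide)) hk)))
      | exact fli 1 _ (fli 2 _ (rep0 ((h.fl 1).fl 2) (ne_of_eq_ne
          (by decide : fl 1 (fl 2 (ix 0 0 0 (by decide))) = ix 0 2 2 (by decide)) hk)))
      | exact fli 0 _ (fli 1 _ (fli 2 _ (rep0 (((h.fl 0).fl 1).fl 2) (ne_of_eq_ne
          (by decide : fl 0 (fl 1 (fl 2 (ix 0 0 0 (by decide)))) = ix 2 2 2 (by decide)) hk))))

/-- changing the twist by a square -/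
lemma RepD.twist {z : I → F} {d w : F} (hw : w ≠ 0) {p : Fin 3 → Fin 2 → F}
    (h : RepD z (d * w ^ 2) p) : RepD z d (fun i => ![p i 0, w * p i 1]) := by
  obtain ⟨hp, s, hs, h⟩ := h
  refine ⟨fun i hi => ?_, s, hs, fun k => ?_⟩
  · have h0 := congrFun hi 0
    have h1 := congrFun hi 1
    simp only [Matrix.cons_val_zero, Matrix.cons_val_one, Pi.zero_apply, mul_eq_zero, hw,
      false_or] at h0 h1
    apply hp i
    funext a
    fin_cases a
    · exact h0
    · exact h1
  · rw [h]
    congr 1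
    have e : ∀ i, mon ![p i 0, w * p i 1] (k.1 i) = mon (p i) (k.1 i) * w ^ (k.1 i : ℕ) := by
      intro i
      rw [mon_eq, mon_eq]
      simp only [Matrix.cons_val_zero, Matrix.cons_val_one, mul_pow]
      ring
    have h2 := wt_two k
    unfold tw mo
    rw [e, e, e, mul_pow, ← pow_mul, h2, pow_add, pow_add]
    ring

end field

end Pool.Agent.X296.Enr
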