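import Pool.Agent.X296.Enr.Toric

/-!
# The twisted forms (helper296)
-/

set_option autoImplicit false

namespace Pool.Agent.X296.Enr

open Pool.Agent.W279.Tri MvPolynomial

section sum

variable {R : Type*} [CommRing R]

/-- the array of coefficients of the form twisted by `d` -/
def arr (d : R) (c : I → R) (i j k : Fin 3) : R :=
  if h : Even ((i : ℕ) + j + k) then d ^ wt ![i, j, k] * c ⟨![i, j, k], h⟩ else 0

lemma sum_I (g : I → R) : ∑ k : I, g k =
    ∑ i : Fin 3, ∑ j : Fin 3, ∑ k : Fin 3,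
      if h : Even ((i : ℕ) + j + k) then g ⟨![i, j, k], h⟩ else 0 := by
  classical
  let P : (Fin 3 → Fin 3) → Prop := fun k => Even ((k 0 : ℕ) + k 1 + k 2)
  let f : (Fin 3 → Fin 3) → R := fun k => if h : P k then g ⟨k, h⟩ else 0
  have h1 : ∑ k : I, g k = ∑ k : Fin 3 → Fin 3, f k := by
    rw [← Fintype.sum_subtype_add_sum_subtype P f]
    have h2 : ∑ x : {x // ¬P x}, f x = 0 := by
      refine Finset.sum_eq_zero fun x _ => ?_
      simp only [f, dif_neg x.2]
    rw [h2, add_zero]
    refine Finset.sum_congr rfl fun x _ => ?_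
    simp only [f]
    rw [dif_pos (show P x from x.2)]
  let e : (Fin 3 → Fin 3) ≃ Fin 3 × Fin 3 × Fin 3 :=
    { toFun := fun k => (k 0, k 1, k 2)
      invFun := fun q => ![q.1, q.2.1, q.2.2]
      left_inv := fun k => by
        funext i
        fin_cases i <;> rfl
      right_inv := fun q => rfl }
  rw [h1, ← Equiv.sum_comp e.symm f, Fintype.sum_prod_type]
  simp only [Fintype.sum_prod_type]
  rfl

lemma sum_E (d : R) (c : I → R) (p : Fin 3 → Fin 2 → R) :
    ∑ k : I, c k * tw d p k = E (arr d c) (p 0) (p 1) (p 2) := by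
  rw [sum_I, E_expand]
  refine Finset.sum_congr rfl fun i _ => Finset.sum_congr rfl fun j _ =>
    Finset.sum_congr rfl fun k _ => ?_
  unfold arr
  split_ifs with h
  · simp only [tw, mo, Matrix.cons_val_zero, Matrix.cons_val_one, Matrix.cons_val]
    ring
  · rw [zero_mul]

end sum

section subst

variable {A : Type*} [Field A]

/-- the substitution -/
noncomputable def Su (u : Fin 3 × Fin 2 → A) :
    MvPolynomial (Fin 3 × Fin 2) A →ₐ[A] MvPolynomial (Fin 3 × Fin 2) A :=
  aeval fun q => C (u q) * X q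

lemma eval_Su (u w : Fin 3 × Fin 2 → A) (f : MvPolynomial (Fin 3 × Fin 2) A) :
    eval w (Su u f) = eval (fun q => u q * w q) f := by
  induction f using MvPolynomial.induction_on with
  | C a => simp [Su]
  | add p q hp hq => rw [map_add, map_add, map_add, hp, hq]
  | mul_X p n hp => rw [map_mul, map_mul, map_mul, hp]; simp [Su]

lemma pderiv_Su (u : Fin 3 × Fin 2 → A) (q : Fin 3 × Fin 2)
    (f : MvPolynomial (Fin 3 × Fin 2) A) :
    pderiv q (Su u f) = C (u q) * Su u (pderiv q f) := by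
  classical
  induction f using MvPolynomial.induction_on with
  | C a => simp [Su]
  | add p p' hp hq => simp only [map_add, hp, hq, mul_add]
  | mul_X p n hp =>
    have h1 : Su u (X n) = C (u n) * X n := by simp [Su]
    rw [map_mul (Su u) p (X n), h1, pderiv_mul, hp, pderiv_C_mul, pderiv_mul, map_add, map_mul,
      map_mul, h1, pderiv_X]
    by_cases hn : n = q
    · subst hn
      simp
      ring
    · have h2 : (Pi.single q 1 : Fin 3 × Fin 2 → MvPolynomial (Fin 3 × Fin 2) A) n = 0 :=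
        Pi.single_eq_of_ne hn 1
      rw [h2]
      simp
      ring

lemma Su_Su (u w : Fin 3 × Fin 2 → A) (h : ∀ q, u q * w q = 1)
    (f : MvPolynomial (Fin 3 × Fin 2) A) : Su u (Su w f) = f := by
  induction f using MvPolynomial.induction_on with
  | C a => simp [Su]
  | add p q hp hq => rw [map_add, map_add, hp, hq]
  | mul_X p n hp =>
    rw [map_mul, map_mul, hp]
    have h1 : Su w (X n) = C (w n) * X n := by simp [Su]
    have h2 : Su u (X n) = C (u n) * X n := by simp [Su]
    have h3 : Su u (C (w n)) = C (w n) := by simp [Su]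
    rw [h1, map_mul, h2, h3, ← mul_assoc (C (w n)), ← C_mul, mul_comm (w n), h, C_1, one_mul]

lemma Su_irreducible (u : Fin 3 × Fin 2 → A) (hu : ∀ q, u q ≠ 0)
    {f : MvPolynomial (Fin 3 × Fin 2) A} (hf : Irreducible f) : Irreducible (Su u f) := by
  let e : MvPolynomial (Fin 3 × Fin 2) A ≃ₐ[A] MvPolynomial (Fin 3 × Fin 2) A :=
    AlgEquiv.ofAlgHom (Su u) (Su fun q => (u q)⁻¹)
      (by
        apply AlgHom.ext
        intro f
        exact Su_Su _ _ (fun q => mul_inv_cancel₀ (hu q)) f)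
      (by
        apply AlgHom.ext
        intro f
        exact Su_Su _ _ (fun q => inv_mul_cancel₀ (hu q)) f)
  exact (MulEquiv.irreducible_iff e).2 hf

/-- irreducibility descends -/
lemma irreducible_of_map {K : Type*} [Field K] (φ : K →+* A) {τ : Type*}
    {f : MvPolynomial τ K} (h : Irreducible (map φ f)) : Irreducible f := by
  classical
  have hu : ∀ g : MvPolynomial τ K, IsUnit (map φ g) → IsUnit g := by
    intro g hg
    rw [MvPolynomial.isUnit_iff_eq_C_of_isReduced] at hg
    obtain ⟨r, hr, hgr⟩ := hg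
    have h1 : g = C (coeff 0 g) := by
      ext m
      rw [coeff_C]
      split_ifs with hm
      · rw [← hm]
      · apply φ.injective
        rw [map_zero, ← coeff_map, hgr, coeff_C, if_neg hm]
    have h2 : coeff 0 g ≠ 0 := by
      intro h0
      rw [h0, C_0] at h1
      rw [h1, map_zero] at hgr
      have := hr.ne_zero
      exact this (C_injective _ _ (by rw [← hgr, C_0]))
    rw [h1]
    exact (IsUnit.mk0 _ h2).map C
  constructor
  · intro hf
    exact h.not_isUnit (hf.map _)
  · intro a b hab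
    have := h.isUnit_or_isUnit (a := map φ a) (b := map φ b) (by rw [hab, map_mul])
    exact this.imp (hu a) (hu b)

end subst

section twist

variable {K : Type*} [Field K] {A : Type*} [Field A] [Algebra K A]

/-- scaling of the second coordinates -/
def scl (δ : A) (p : Fin 3 → Fin 2 → A) : Fin 3 → Fin 2 → A := fun i a => δ ^ (a : ℕ) * p i a

lemma scl_ne {δ : A} (hδ : δ ≠ 0) {p : Fin 3 → Fin 2 → A} {i : Fin 3} (h : p i ≠ 0) :
    scl δ p i ≠ 0 := by
  intro h0
  apply h
  funext a
  have := congrFun h0 a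
  simp only [scl, Pi.zero_apply, mul_eq_zero, pow_eq_zero_iff', hδ, false_and, false_or] at this
  exact this

lemma mon_scl (δ : A) (l : Fin 3) (i : Fin 3) :
    mon (fun a : Fin 2 => C (δ ^ (a : ℕ)) * (X (l, a) : MvPolynomial (Fin 3 × Fin 2) A)) i =
      C (δ ^ (i : ℕ)) * mon (fun a => X (l, a)) i := by
  fin_cases i <;> simp [mon] <;> ring

lemma map_form_arr {d : K} {δ : A} (hδ : δ ^ 2 = algebraMap K A d) (c : I → K) :
    map (algebraMap K A) (form (arr d c)) =
      Su (fun q => δ ^ (q.2 : ℕ)) (map (algebraMap K A) (form (arr 1 c))) := by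
  have hm : ∀ (l : Fin 3) (i : Fin 3), map (algebraMap K A)
      (mon (fun a => (X (l, a) : MvPolynomial (Fin 3 × Fin 2) K)) i) =
      mon (fun a => (X (l, a) : MvPolynomial (Fin 3 × Fin 2) A)) i := by
    intro l i
    fin_cases i <;> simp [mon]
  have hs : ∀ (l : Fin 3) (i : Fin 3), Su (fun q => δ ^ (q.2 : ℕ))
      (mon (fun a => (X (l, a) : MvPolynomial (Fin 3 × Fin 2) A)) i) =
      C (δ ^ (i : ℕ)) * mon (fun a => (X (l, a) : MvPolynomial (Fin 3 × Fin 2) A)) i := by
    intro l i
    rw [← mon_scl]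
    fin_cases i <;> simp [mon, Su]
  unfold form
  simp only [map_sum, map_mul, map_C, hm, hs]
  refine Finset.sum_congr rfl fun i _ => Finset.sum_congr rfl fun j _ =>
    Finset.sum_congr rfl fun k _ => ?_
  have hC : ∀ a : A, Su (fun q => δ ^ (q.2 : ℕ)) (C a) = C a := by
    intro a
    simp [Su]
  rw [hC]
  have e : algebraMap K A (arr d c i j k) =
      algebraMap K A (arr 1 c i j k) * (δ ^ (i : ℕ) * (δ ^ (j : ℕ) * δ ^ (k : ℕ))) := by
    unfold arr
    split_ifs with h
    · have h1 : 2 * wt ![i, j, k] = (i : ℕ) + j + k := wt_two ⟨![i, j, k], h⟩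
      rw [map_mul, map_mul, map_pow, ← hδ, ← pow_mul, h1, one_pow, map_one, one_mul, pow_add,
        pow_add]
      ring
    · rw [map_zero, zero_mul]
  rw [e]
  simp only [C_mul]
  ring

lemma aeval_arr {d : K} {δ : A} (hδ : δ ^ 2 = algebraMap K A d) (c : I → K)
    (p : Fin 3 → Fin 2 → A) :
    aeval (fun q : Fin 3 × Fin 2 => p q.1 q.2) (form (arr d c)) =
      aeval (fun q : Fin 3 × Fin 2 => scl δ p q.1 q.2) (form (arr 1 c)) := by
  rw [aeval_def, aeval_def, ← eval_map, ← eval_map, map_form_arr hδ, eval_Su]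
  rfl

lemma aeval_pderiv_arr {d : K} {δ : A} (hδ : δ ^ 2 = algebraMap K A d) (c : I → K)
    (p : Fin 3 → Fin 2 → A) (q : Fin 3 × Fin 2) :
    aeval (fun q : Fin 3 × Fin 2 => p q.1 q.2) (pderiv q (form (arr d c))) =
      δ ^ (q.2 : ℕ) *
        aeval (fun q : Fin 3 × Fin 2 => scl δ p q.1 q.2) (pderiv q (form (arr 1 c))) := by
  rw [aeval_def, aeval_def, ← eval_map, ← eval_map, ← pderiv_map, ← pderiv_map, map_form_arr hδ,
    pderiv_Su, map_mul, eval_C, eval_Su]
  rfl

end twist

/-- the hypotheses on the covering surface -/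
structure Adm {K : Type} [Field K] (F : MvPolynomial (Fin 3 × Fin 2) K) : Prop where
  irr : Irreducible (map (algebraMap K (AlgebraicClosure K)) F)
  noFibre : ∀ (i : Fin 3) (p : Fin 3 → Fin 2 → AlgebraicClosure K), (∀ j, p j ≠ 0) →
    ∃ w : Fin 2 → AlgebraicClosure K,
      aeval (fun q : Fin 3 × Fin 2 => Function.update p i w q.1 q.2) F ≠ 0
  isolated : ∃ S : Set (Fin 3 → Fin 2 → AlgebraicClosure K), S.Finite ∧
    ∀ p : Fin 3 → Fin 2 → AlgebraicClosure K, (∀ i, p i ≠ 0) →
      (∀ q : Fin 3 × Fin 2, aeval (fun r : Fin 3 × Fin 2 => p r.1 r.2) (pderiv q F) = 0) →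
      ∃ s ∈ S, ∀ i, ∃ t : AlgebraicClosure K, p i = t • s i

lemma exists_sqrt {K : Type} [Field K] (d : K) :
    ∃ δ : AlgebraicClosure K, δ ^ 2 = algebraMap K (AlgebraicClosure K) d := by
  obtain ⟨δ, h⟩ := IsAlgClosed.exists_pow_nat_eq (algebraMap K (AlgebraicClosure K) d) two_pos
  exact ⟨δ, h⟩

/-- the hypotheses are stable under twists -/
theorem Adm.twist {K : Type} [Field K] {c : I → K} (h : Adm (form (arr 1 c))) {d : K}
    (hd : d ≠ 0) : Adm (form (arr d c)) := by
  obtain ⟨δ, hδ⟩ := exists_sqrt d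
  have hδ0 : δ ≠ 0 := by
    rintro rfl
    rw [zero_pow two_ne_zero] at hδ
    exact hd ((map_eq_zero _).1 hδ.symm)
  refine ⟨?_, ?_, ?_⟩
  · rw [map_form_arr hδ]
    exact Su_irreducible _ (fun q => pow_ne_zero _ hδ0) h.irr
  · intro i p hp
    obtain ⟨w, hw⟩ := h.noFibre i (scl δ p) (fun j => scl_ne hδ0 (hp j))
    refine ⟨fun a => (δ ^ (a : ℕ))⁻¹ * w a, ?_⟩
    rw [aeval_arr hδ]
    have e : (fun q : Fin 3 × Fin 2 => scl δ (Function.update p i
        fun a : Fin 2 => (δ ^ (a : ℕ))⁻¹ * w a) q.1 q.2) =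
        fun q => Function.update (scl δ p) i w q.1 q.2 := by
      funext q
      obtain ⟨j, a⟩ := q
      by_cases hj : j = i
      · subst hj
        simp only [scl, Function.update_self]
        rw [mul_inv_cancel_left₀ (pow_ne_zero _ hδ0)]
      · simp only [scl, Function.update_of_ne hj]
    rw [e]
    exact hw
  · obtain ⟨S, hS, hS'⟩ := h.isolated
    refine ⟨(fun s => scl δ⁻¹ s) '' S, hS.image _, fun p hp hq => ?_⟩
    obtain ⟨s, hs, hs'⟩ := hS' (scl δ p) (fun j => scl_ne hδ0 (hp j)) (fun q => by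
      have h1 := hq q
      rw [aeval_pderiv_arr hδ] at h1
      exact (mul_eq_zero.1 h1).resolve_left (pow_ne_zero _ hδ0))
    refine ⟨_, ⟨s, hs, rfl⟩, fun i => ?_⟩
    obtain ⟨t, ht⟩ := hs' i
    refine ⟨t, ?_⟩
    funext a
    have h1 := congrFun ht a
    simp only [scl, Pi.smul_apply, smul_eq_mul] at h1 ⊢
    have h2 : δ ^ (a : ℕ) ≠ 0 := pow_ne_zero _ hδ0
    rw [inv_pow, mul_left_comm, ← h1, inv_mul_cancel_left₀ h2]

end Pool.Agent.X296.Enr
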